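import Pool.Agent.H354.BG.Defs

set_option autoImplicit false

/-! Project BG (helper354): basic lemmas for everybody. -/

namespace Pool.Agent.H354.BG

open Pool.Agent.H482R3.EA (W inv ev PP xx evF cond1 cond2 Syl gOf Sys St Near InD Adm Act)
open Pool.Agent.H482R3.EB (tot wp alt rels AR gR TR Tame Symm alt_length)

variable (D : Dat)

/-! ### words -/

lemma gEl_nil : gEl D [] = 1 := rfl

lemma gEl_append (u v : W (Fin D.n)) : gEl D (u ++ v) = gEl D u * gEl D v :=
  (Pool.Agent.H482R3.EB.Asm.ev (Fin D.n) D.A inferInstance (gR D.m)).1 u v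

lemma gEl_inv (u : W (Fin D.n)) : gEl D (inv u) = (gEl D u)⁻¹ :=
  (Pool.Agent.H482R3.EB.Asm.ev (Fin D.n) D.A inferInstance (gR D.m)).2.1 u

lemma gEl_rep (s : Fin D.n) (n : ℕ) :
    gEl D (List.replicate n (s, true)) = gR D.m s ^ n ∧
      gEl D (List.replicate n (s, false)) = (gR D.m s)⁻¹ ^ n :=
  (Pool.Agent.H482R3.EB.Asm.ev (Fin D.n) D.A inferInstance (gR D.m)).2.2 s n

lemma gEl_repl (a : Fin D.n × Bool) (n : ℕ) : gEl D (List.replicate n a) = lt D a ^ n := by
  obtain ⟨s, b⟩ := a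
  cases b
  · exact (gEl_rep D s n).2
  · exact (gEl_rep D s n).1

lemma gEl_single (a : Fin D.n × Bool) : gEl D [a] = lt D a := by
  have h := gEl_repl D a 1
  rw [pow_one] at h
  exact h

lemma gEl_cons (a : Fin D.n × Bool) (u : W (Fin D.n)) : gEl D (a :: u) = lt D a * gEl D u := by
  rw [← gEl_single, ← gEl_append]
  rfl

lemma gEl_wp (s : Fin D.n) (i : ℤ) : gEl D (wp s i) = gR D.m s ^ i :=
  (Pool.Agent.H482R3.EB.t_WPW (Fin D.n) D.A inferInstance (gR D.m) s i).1

lemma wp_length (s : Fin D.n) (i : ℤ) : ((wp s i : W (Fin D.n)).length : ℤ) = |i| :=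
  (Pool.Agent.H482R3.EB.t_WPW (Fin D.n) D.A inferInstance (gR D.m) s i).2.2

lemma gEl_surj (g : D.A) : ∃ u : W (Fin D.n), gEl D u = g :=
  Pool.Agent.H482R3.EB.t_SUR (Fin D.n) D.m g

lemma lt_true (s : Fin D.n) : lt D (s, true) = gR D.m s := rfl
lemma lt_false (s : Fin D.n) : lt D (s, false) = (gR D.m s)⁻¹ := rfl

/-! ### filtered words -/

lemma flt_append (U : Finset (Fin D.r)) (u v : W (Fin D.n)) :
    flt D U (u ++ v) = flt D U u ++ flt D U v := List.filter_append ..

lemma flt_inv (U : Finset (Fin D.r)) (u : W (Fin D.n)) : flt D U (inv u) = inv (flt D U u) := by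
  unfold flt inv
  rw [List.filter_reverse, List.filter_map]
  rfl

lemma flt_flt (U U' : Finset (Fin D.r)) (u : W (Fin D.n)) :
    flt D U (flt D U' u) = flt D (U ∩ U') u := by
  unfold flt
  rw [List.filter_filter]
  congr 1
  funext a
  simp [Finset.mem_inter]

lemma flt_nil (U : Finset (Fin D.r)) : flt D U [] = [] := rfl

lemma flt_wp (U : Finset (Fin D.r)) (s : Fin D.n) (i : ℤ) :
    flt D U (wp s i) = if D.β s ∈ U then wp s i else [] := by
  unfold flt wp
  by_cases h : D.β s ∈ U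
  · rw [if_pos h]
    split_ifs <;> simp [h]
  · rw [if_neg h]
    split_ifs <;> simp [h]

lemma flt_univ (u : W (Fin D.n)) : flt D Finset.univ u = u := by
  unfold flt
  simp

lemma flt_length (U : Finset (Fin D.r)) (u : W (Fin D.n)) : (flt D U u).length ≤ u.length :=
  List.length_filter_le ..

/-! ### the retractions -/

lemma rho_lt (U : Finset (Fin D.r)) (a : Fin D.n × Bool) :
    rho D U (lt D a) = if D.β a.1 ∈ U then lt D a else 1 := by
  obtain ⟨s, b⟩ := a
  cases b
  · rw [lt_false, map_inv, rho_gR]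
    by_cases h : D.β s ∈ U
    · rw [if_pos h, if_pos h]
    · rw [if_neg h, if_neg h, inv_one]
  · rw [lt_true, rho_gR]

lemma rho_gEl (U : Finset (Fin D.r)) (u : W (Fin D.n)) :
    rho D U (gEl D u) = gEl D (flt D U u) := by
  induction u with
  | nil => exact map_one _
  | cons a u ih =>
    rw [gEl_cons, map_mul, ih, rho_lt]
    by_cases h : D.β a.1 ∈ U
    · have h1 : flt D U (a :: u) = a :: flt D U u := by
        unfold flt; rw [List.filter_cons_of_pos (by simpa using h)]
      rw [if_pos h, h1, gEl_cons]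
    · have h1 : flt D U (a :: u) = flt D U u := by
        unfold flt; rw [List.filter_cons_of_neg (by simpa using h)]
      rw [if_neg h, one_mul, h1]

lemma mem_par {U : Finset (Fin D.r)} {g : D.A} : g ∈ par D U ↔ rho D U g = g := Iff.rfl

lemma rho_of_par {U : Finset (Fin D.r)} {g : D.A} (h : g ∈ par D U) : rho D U g = g := h

lemma par_mono {U U' : Finset (Fin D.r)} (h : U ⊆ U') {g : D.A} (hg : g ∈ par D U) :
    g ∈ par D U' := by
  rw [mem_par] at *
  rw [← hg, rho_rho, Finset.inter_eq_right.mpr h]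

lemma rho_rho_sub {U U' : Finset (Fin D.r)} (h : U ⊆ U') (g : D.A) :
    rho D U (rho D U' g) = rho D U g := by
  rw [rho_rho, Finset.inter_eq_left.mpr h]

lemma rho_rho_sub' {U U' : Finset (Fin D.r)} (h : U ⊆ U') (g : D.A) :
    rho D U' (rho D U g) = rho D U g := by
  rw [rho_rho, Finset.inter_eq_right.mpr h]

lemma rho_mem_sub {U U' : Finset (Fin D.r)} (h : U ⊆ U') (g : D.A) : rho D U g ∈ par D U' :=
  par_mono D h (rho_mem D U g)

lemma rho_empty (g : D.A) : rho D ∅ g = 1 := by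
  obtain ⟨u, rfl⟩ := gEl_surj D g
  rw [rho_gEl]
  have : flt D ∅ u = [] := by unfold flt; simp
  rw [this]; rfl

lemma rho_univ (g : D.A) : rho D Finset.univ g = g := by
  obtain ⟨u, rfl⟩ := gEl_surj D g
  rw [rho_gEl, flt_univ]

/-- a retraction kills the generators of the blocks outside -/
lemma rho_disj {U U' : Finset (Fin D.r)} (h : Disjoint U U') {g : D.A} (hg : g ∈ par D U') :
    rho D U g = 1 := by
  rw [← rho_of_par D hg, rho_rho, Finset.disjoint_iff_inter_eq_empty.mp h, rho_empty]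

lemma rho_zpow_in {U : Finset (Fin D.r)} {w : Fin D.n} (h : D.β w ∈ U) (i : ℤ) :
    rho D U (gR D.m w ^ i) = gR D.m w ^ i := by
  rw [map_zpow, rho_gR, if_pos h]

lemma rho_zpow_out {U : Finset (Fin D.r)} {w : Fin D.n} (h : D.β w ∉ U) (i : ℤ) :
    rho D U (gR D.m w ^ i) = 1 := by
  rw [map_zpow, rho_gR, if_neg h, one_zpow]

lemma gR_mem_par {U : Finset (Fin D.r)} {w : Fin D.n} (h : D.β w ∈ U) : gR D.m w ∈ par D U := by
  rw [mem_par, rho_gR, if_pos h]

/-! ### block exponents -/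

lemma eg_mul (b : Fin D.r) (g g' : D.A) : eg D b (g * g') = eg D b g + eg D b g' := by
  unfold eg; rw [map_mul]; rfl

lemma eg_one (b : Fin D.r) : eg D b 1 = 0 := by unfold eg; rw [map_one]; rfl

lemma eg_inv (b : Fin D.r) (g : D.A) : eg D b g⁻¹ = - eg D b g := by
  unfold eg; rw [map_inv]; rfl

lemma eg_gR (b : Fin D.r) (s : Fin D.n) : eg D b (gR D.m s) = if D.β s = b then 1 else 0 := by
  unfold eg; rw [egh_gR]; rfl

lemma eg_zpow (b : Fin D.r) (g : D.A) (i : ℤ) : eg D b (g ^ i) = i * eg D b g := by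
  unfold eg
  rw [map_zpow]
  simp

lemma eg_gR_zpow (s : Fin D.n) (i : ℤ) : eg D (D.β s) (gR D.m s ^ i) = i := by
  rw [eg_zpow, eg_gR, if_pos rfl, mul_one]

lemma eg_rho (b : Fin D.r) (U : Finset (Fin D.r)) (g : D.A) :
    eg D b (rho D U g) = if b ∈ U then eg D b g else 0 := by
  by_cases hb : b ∈ U
  · rw [if_pos hb]
    have h := gind D (MonoidHom.eqLocus ((egh D b).comp (rho D U)) (egh D b)) (fun s => by
      show ((egh D b).comp (rho D U)) (gR D.m s) = egh D b (gR D.m s)
      rw [MonoidHom.comp_apply, rho_gR]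
      by_cases h : D.β s ∈ U
      · rw [if_pos h]
      · have h2 : D.β s ≠ b := fun h' => h (by rw [h']; exact hb)
        rw [if_neg h, map_one, egh_gR, if_neg h2]; rfl) g
    unfold eg
    exact congrArg _ h
  · rw [if_neg hb]
    have h := gind D (MonoidHom.eqLocus ((egh D b).comp (rho D U)) 1) (fun s => by
      show ((egh D b).comp (rho D U)) (gR D.m s) = 1
      rw [MonoidHom.comp_apply, rho_gR]
      by_cases h : D.β s ∈ U
      · have h2 : D.β s ≠ b := fun h' => hb (by rw [← h']; exact h)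
        rw [if_pos h, egh_gR, if_neg h2]; rfl
      · rw [if_neg h, map_one]) g
    unfold eg
    exact congrArg _ h

/-- the exponent of a block outside of `U` vanishes on `par U` -/
lemma eg_par {b : Fin D.r} {U : Finset (Fin D.r)} (hb : b ∉ U) {g : D.A} (hg : g ∈ par D U) :
    eg D b g = 0 := by
  rw [← rho_of_par D hg, eg_rho, if_neg hb]

lemma tot_cons {S : Type} (a : S × Bool) (u : W S) :
    tot (a :: u) = (if a.2 then 1 else -1) + tot u := by
  unfold tot; rw [List.map_cons, List.sum_cons]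

lemma eg_gEl (b : Fin D.r) (u : W (Fin D.n)) : eg D b (gEl D u) = tot (flt D {b} u) := by
  induction u with
  | nil => rw [gEl_nil, eg_one]; rfl
  | cons a u ih =>
    rw [gEl_cons, eg_mul, ih]
    obtain ⟨s, e⟩ := a
    by_cases h : D.β s = b
    · have h1 : flt D {b} ((s, e) :: u) = (s, e) :: flt D {b} u := by
        unfold flt; rw [List.filter_cons_of_pos (by simpa using h)]
      rw [h1, tot_cons]
      cases e
      · rw [lt_false, eg_inv, eg_gR, if_pos h]; rfl
      · rw [lt_true, eg_gR, if_pos h]; rfl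
    · have h1 : flt D {b} ((s, e) :: u) = flt D {b} u := by
        unfold flt; rw [List.filter_cons_of_neg (by simpa using h)]
      rw [h1]
      cases e
      · rw [lt_false, eg_inv, eg_gR, if_neg h]; simp
      · rw [lt_true, eg_gR, if_neg h]; simp

lemma abs_tot_le {S : Type} (u : W S) : |tot u| ≤ (u.length : ℤ) := by
  induction u with
  | nil => simp [tot]
  | cons a u ih =>
    rw [tot_cons, List.length_cons]
    have h : |(if a.2 then (1 : ℤ) else -1)| = 1 := by split_ifs <;> simp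
    calc _ ≤ |(if a.2 then (1 : ℤ) else -1)| + |tot u| := abs_add_le _ _
      _ ≤ _ := by rw [h]; push_cast; linarith

/-- the exponent of a block is bounded by the length -/
lemma abs_eg_le (b : Fin D.r) (u : W (Fin D.n)) : |eg D b (gEl D u)| ≤ (u.length : ℤ) := by
  rw [eg_gEl]
  exact (abs_tot_le _).trans (by exact_mod_cast flt_length D {b} u)

/-! ### labels, tameness -/

lemma tame : Tame D.m :=
  Pool.Agent.H482R3.EB.t_TAME (Fin D.n) D.m D.symm (fun s t h => D.ne1 s t h)

/-- the finite labels of cross lines are `2 k` with `k ≥ 2` -/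
lemma kk_spec {U : Finset (Fin D.r)} {b : Fin D.r} {v w : Fin D.n} (h : okL D U b v w) :
    2 ≤ kk D v w ∧ D.m v w = 2 * kk D v w := by
  obtain ⟨h1, h2, h3, h4, h5⟩ := h
  have hb : D.β v ≠ D.β w := by rw [h1]; exact fun h => h3 h.symm
  obtain ⟨⟨k, hk⟩, hn⟩ := D.cro v w hb (by rw [h1]; exact h4)
  unfold kk
  omega

/-- the relation of a cross line -/
lemma cross_rel {U : Finset (Fin D.r)} {b : Fin D.r} {v w : Fin D.n} (h : okL D U b v w) :
    (gR D.m v * gR D.m w) ^ kk D v w = (gR D.m w * gR D.m v) ^ kk D v w := by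
  have h1 := kk_spec D h
  have h2 := rel_eq D v w (fun hvw => by
    have := h.1; rw [hvw] at this; exact h.2.2.1 this) h.2.2.2.2
  rw [h1.2, alt_two, alt_two] at h2
  exact h2

/-- the block `b` commutes with the blocks of `pZ U b` -/
lemma comm_b {U : Finset (Fin D.r)} {b : Fin D.r} {x z : D.A} (hx : x ∈ par D {b})
    (hz : z ∈ par D (pZ D U b)) : Commute x z := by
  have h := gind D ((Subgroup.centralizer {z}).comap (rho D {b})) (fun s => by
    rw [Subgroup.mem_comap, Subgroup.mem_centralizer_iff]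
    intro y hy
    rw [Set.mem_singleton_iff] at hy
    subst hy
    rw [rho_gR]
    by_cases h1 : D.β s ∈ ({b} : Finset (Fin D.r))
    · rw [if_pos h1]
      rw [Finset.mem_singleton] at h1
      subst h1
      exact (comm_pZ D U s y hz).eq.symm
    · rw [if_neg h1, mul_one, one_mul]) x
  rw [Subgroup.mem_comap, Subgroup.mem_centralizer_iff, rho_of_par D hx] at h
  exact (h z rfl).symm

/-! ### membership -/

variable (U : Finset (Fin D.r)) (b : Fin D.r)

lemma mem_pZ {c : Fin D.r} : c ∈ pZ D U b ↔ c ∈ U ∧ c ≠ b ∧ D.R b c = true := Finset.mem_filter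

lemma pZ_sub : pZ D U b ⊆ U := Finset.filter_subset _ _

lemma b_notMem_pZ : b ∉ pZ D U b := fun h => ((mem_pZ D U b).mp h).2.1 rfl

lemma mem_H0 {g : D.A} : g ∈ H0 D U b ↔ rho D U g ∈ par D (pZ D U b) := Iff.rfl

lemma mem_H0' {g : D.A} : g ∈ H0 D U b ↔ rho D (pZ D U b) g = rho D U g := by
  rw [mem_H0, mem_par, rho_rho_sub D (pZ_sub D U b)]

lemma mem_Hw {w : Fin D.n} {g : D.A} : g ∈ Hw D U b w ↔
    ∃ (i : ℤ) (u : D.A), u ∈ par D (pZ D (pZ D U b) (D.β w)) ∧ rho D U g = gR D.m w ^ i * u :=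
  Iff.rfl

/-- a block line of a cross line is not commuting: `w ∉ Z` -/
lemma w_notMem_Z {v w : Fin D.n} (h : okL D U b v w) : D.β w ∉ pZ D U b := fun h1 => by
  have h2 := ((mem_pZ D U b).mp h1).2.2
  rw [h.2.2.2.1] at h2
  exact Bool.noConfusion h2

/-- `g ∈ ⟨w⟩ A_{Z ∩ w^⊥}` in a decidable form -/
lemma mem_lsub {Z : Finset (Fin D.r)} {w : Fin D.n} {g : D.A} :
    g ∈ lsub D Z w ↔ g = gR D.m w ^ (eg D (D.β w) g) * rho D (pZ D Z (D.β w)) g := by
  constructor
  · rintro ⟨i, u, hu, rfl⟩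
    have h1 : D.β w ∉ pZ D Z (D.β w) := b_notMem_pZ D Z (D.β w)
    rw [eg_mul, eg_gR_zpow, eg_par D h1 hu, add_zero, map_mul, rho_zpow_out D h1, one_mul,
      rho_of_par D hu]
  · intro h
    exact ⟨_, _, rho_mem D _ g, h⟩

/-- the block exponent of `w` vanishes on `H0` -/
lemma eg_H0 {v w : Fin D.n} (h : okL D U b v w) {g : D.A} (hg : g ∈ H0 D U b) :
    eg D (D.β w) g = 0 := by
  have h1 := eg_par D (w_notMem_Z D U b h) ((mem_H0 D U b).mp hg)
  rw [eg_rho, if_pos h.2.1] at h1
  exact h1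

lemma rhoP_coe (g : D.A) : ((rhoP D b g : par D {b}) : D.A) = rho D {b} g := rfl

lemma rhoP_surj (y : par D {b}) : ∃ g : W (Fin D.n), rhoP D b (gEl D g) = y := by
  obtain ⟨u, hu⟩ := gEl_surj D y.1
  exact ⟨u, Subtype.ext (by rw [rhoP_coe, hu]; exact y.2)⟩

lemma gR_zpow_eq_one {s : Fin D.n} {i : ℤ} (h : gR D.m s ^ i = 1) : i = 0 := by
  have h1 := eg_gR_zpow D s i
  rw [h, eg_one] at h1
  exact h1.symm

end Pool.Agent.H354.BG
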