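import Pool.Agent.H354.BG.Main

set_option autoImplicit false

/-! Project BG (helper354): centres. Codes are translated by elements of `A_U`; for a central
element the code is invariant, and its last syllable gives a contradiction. -/

namespace Pool.Agent.H354.BG.Cen

open Pool.Agent.H354.BG
open Pool.Agent.H482R3.EA (W inv ev PP xx evF cond1 cond2 Syl gOf Sys St Near InD Adm Act)
open Pool.Agent.H482R3.EB (tot wp alt rels AR gR TR Tame Symm alt_length)

variable (D : Dat)

/-- translation of a syllable -/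
def tr (y : W (Fin D.n)) : Sy D → Sy D
  | .inl (g, v, s, n) => .inl (y ++ g, v, s, n)
  | .inr (.inl (g, q)) => .inr (.inl (y ++ g, q))
  | .inr (.inr (g, v, w, q)) => .inr (.inr (y ++ g, v, w, q))

lemma quo (y g' g : W (Fin D.n)) :
    (gEl D (y ++ g'))⁻¹ * gEl D (y ++ g) = (gEl D g')⁻¹ * gEl D g := by
  rw [gEl_append, gEl_append]
  group

variable (U : Finset (Fin D.r)) (b : Fin D.r)

lemma near_tr (y g : W (Fin D.n)) (v : Fin D.n) (s : Option (Sy D)) :
    NearW D U b (y ++ g) v (s.map (tr D y)) ↔ NearW D U b g v s := by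
  rcases s with _ | s
  · exact Iff.rfl
  · rcases s with ⟨g', v', e, n⟩ | ⟨g', q⟩ | ⟨g', v', w', q⟩
    · simp only [Option.map_some, tr, NearW, sameP, dcs, quo]
    · simp only [Option.map_some, tr, NearW, sameP, quo]
    · simp only [Option.map_some, tr, NearW, onL, quo]

lemma inDB_tr (y g : W (Fin D.n)) (s : Option (Sy D)) :
    InDB D U b (y ++ g) (s.map (tr D y)) ↔ InDB D U b g s := by
  rcases s with _ | s
  · exact Iff.rfl
  · rcases s with ⟨g', v', e, n⟩ | ⟨g', q⟩ | ⟨g', v', w', q⟩
    · simp only [Option.map_some, tr, InDB, sameP, quo]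
    · simp only [Option.map_some, tr, InDB, sameP, quo]
    · exact Iff.rfl

lemma inDL_tr (y g : W (Fin D.n)) (v w : Fin D.n) (s : Option (Sy D)) :
    InDL D U b (y ++ g) v w (s.map (tr D y)) ↔ InDL D U b g v w s := by
  rcases s with _ | s
  · exact Iff.rfl
  · rcases s with ⟨g', v', e, n⟩ | ⟨g', q⟩ | ⟨g', v', w', q⟩
    · simp only [Option.map_some, tr, InDL, onL, quo]
    · exact Iff.rfl
    · simp only [Option.map_some, tr, InDL, sameL, quo]

lemma adm_tr (y : W (Fin D.n)) (s : Option (Sy D)) (a : Sy D) :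
    AdmW D U b (s.map (tr D y)) (tr D y a) ↔ AdmW D U b s a := by
  rcases a with ⟨g, v, e, n⟩ | ⟨g, q⟩ | ⟨g, v, w, q⟩
  · simp only [tr, AdmW, near_tr]
  · simp only [tr, AdmW, near_tr, inDB_tr]
  · simp only [tr, AdmW, List.append_assoc, near_tr, inDL_tr]

lemma vc_tr (y : W (Fin D.n)) (code : List (Sy D)) : ∀ s : Option (Sy D),
    VC D U b s code → VC D U b (s.map (tr D y)) (code.map (tr D y)) := by
  induction code with
  | nil => intro s _; trivial
  | cons a l ih =>
    intro s h
    exact ⟨(adm_tr D U b y s a).mpr h.1, ih (some a) h.2⟩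

lemma val_tr (y : W (Fin D.n)) (a : Sy D) : gEl D (valS D U b (tr D y a)) =
    gEl D (flt D U y) * gEl D (valS D U b a) * (gEl D (flt D U y))⁻¹ := by
  rcases a with ⟨g, v, e, n⟩ | ⟨g, q⟩ | ⟨g, v, w, q⟩
  · simp only [tr, valS, flt_append, gEl_append, gEl_inv]
    group
  · simp only [tr, valS, flt_append, gEl_append, gEl_inv]
    group
  · simp only [tr, valS, flt_append, gEl_append, gEl_inv]
    group

lemma vals_tr (y : W (Fin D.n)) (code : List (Sy D)) :
    gEl D ((code.map (tr D y)).flatMap (valS D U b)) =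
    gEl D (flt D U y) * gEl D (code.flatMap (valS D U b)) * (gEl D (flt D U y))⁻¹ := by
  induction code with
  | nil => simp [gEl_nil]
  | cons a l ih =>
    rw [List.map_cons, List.flatMap_cons, List.flatMap_cons, gEl_append, gEl_append, ih, val_tr]
    group

/-- words with the same value act equally -/
lemma run_eq (hb : b ∉ U) (h : SysOK D U b) (A : Act (sysX D U b h)) (u u' : W (Fin D.n))
    (e : gEl D u = gEl D u') (x : A.Ω × D.A) : runX D U b h A u x = runX D U b h A u' x := by
  have app : ∀ (u u' : W (Fin D.n)) (x : A.Ω × D.A),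
      runX D U b h A (u ++ u') x = runX D U b h A u' (runX D U b h A u x) := fun u u' x => by
    simp [runX, List.foldl_append]
  have act := Asm.actx D U b hb h A
  have e1 := act (inv u' ++ u) (by rw [gEl_append, gEl_inv, e, inv_mul_cancel])
    (runX D U b h A u' x)
  have e2 := act (u' ++ inv u') (by rw [gEl_append, gEl_inv, mul_inv_cancel]) x
  rw [app] at e1 e2
  rw [e2] at e1
  exact e1

/-- the state of the last syllable is invariant -/
lemma last_tr (hb : b ∉ U) (h : SysOK D U b) (code : List (Sy D)) (hc : VC D U b none code)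
    (y : W (Fin D.n)) (he : gEl D ((code.map (tr D y)).flatMap (valS D U b)) =
      gEl D (code.flatMap (valS D U b))) :
    stO D U b h (code.getLast?.map (tr D y)) = stO D U b h code.getLast? := by
  obtain ⟨A⟩ := Pool.Agent.H482R3.EB.Asm.nft (sysX D U b h)
  have om := (Asm.om' D U b hb h A).1
  obtain ⟨-, s1, r1⟩ := om code hc
  obtain ⟨-, s2, r2⟩ := om (code.map (tr D y)) (vc_tr D U b y code none hc)
  have e := run_eq D U b hb h A _ _ he (A.one, 1)
  rw [r1, r2] at e
  have e' := congrArg Prod.fst e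
  simp only at e'
  rw [List.getLast?_map, e', s1] at s2
  exact s2.symm

/-- a code whose value commutes with `A_U` is empty -/
lemma code_nil (hb : b ∉ U) (h : SysOK D U b) (w0 : Fin D.n) (hw0 : D.β w0 ∈ U)
    (hw0' : D.β w0 ∉ pZ D U b)
    (hNE : ∀ v w : Fin D.n, okL D U b v w →
      ∃ u : Fin D.n, D.β u ∈ U ∧ u ≠ w ∧ D.β u ∉ pZ D (pZ D U b) (D.β w))
    (code : List (Sy D)) (hc : VC D U b none code)
    (hcom : ∀ y : W (Fin D.n), gEl D (flt D U y) * gEl D (code.flatMap (valS D U b)) =
      gEl D (code.flatMap (valS D U b)) * gEl D (flt D U y)) : code = [] := by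
  by_contra hne
  have hlast : ∀ y : W (Fin D.n),
      stO D U b h (code.getLast?.map (tr D y)) = stO D U b h code.getLast? := by
    intro y
    refine last_tr D U b hb h code hc y ?_
    rw [vals_tr, hcom y]
    group
  obtain ⟨A⟩ := Pool.Agent.H482R3.EB.Asm.nft (sysX D U b h)
  have hok := ((Asm.om' D U b hb h A).1 code hc).1
  obtain ⟨a, ha⟩ : ∃ a, code.getLast? = some a := by
    cases hl : code.getLast? with
    | none => exact absurd (List.getLast?_eq_none_iff.mp hl) hne
    | some a => exact ⟨a, rfl⟩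
  have hoka := hok a (List.mem_of_getLast? ha)
  rw [ha] at hlast
  simp only [Option.map_some] at hlast
  have hH0 : ∀ g : W (Fin D.n), (∀ y : W (Fin D.n),
      (QuotientGroup.mk (gEl D (y ++ g)) : D.A ⧸ H0 D U b) = QuotientGroup.mk (gEl D g)) →
      False := by
    intro g hg
    obtain ⟨y, hy⟩ := gEl_surj D (gEl D g * gR D.m w0 * (gEl D g)⁻¹)
    have h1 := (QuotientGroup.eq.mp (hg y).symm : (gEl D g)⁻¹ * gEl D (y ++ g) ∈ H0 D U b)
    rw [gEl_append, hy, show (gEl D g)⁻¹ * (gEl D g * gR D.m w0 * (gEl D g)⁻¹ * gEl D g) =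
      gR D.m w0 by group, mem_H0', rho_gR, rho_gR, if_neg hw0', if_pos hw0] at h1
    have h2 := gR_zpow_eq_one D (s := w0) (i := 1) (by rw [zpow_one, ← h1])
    omega
  rcases a with ⟨g, v, e, n⟩ | ⟨g, q⟩ | ⟨g, v, w, q⟩
  · have hv : D.β v = b := hoka
    refine hH0 g fun y => ?_
    have h1 := hlast y
    simp only [tr, stO, dif_pos hv] at h1
    injection h1 with h2
    exact congrArg Prod.fst h2
  · refine hH0 g fun y => ?_
    have h1 := hlast y
    simp only [tr, stO] at h1
    injection h1 with h2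
    exact Sum.inl.inj h2
  · have hv : okL D U b v w := hoka
    obtain ⟨u, hu1, hu2, hu3⟩ := hNE v w hv
    obtain ⟨y, hy⟩ := gEl_surj D (gEl D g * gR D.m u * (gEl D g)⁻¹)
    have h1 := hlast y
    simp only [tr, stO, dif_pos hv] at h1
    injection h1 with h2
    have h3 := Sum.inr.inj h2
    have h4 : (QuotientGroup.mk (gEl D (y ++ g)) : D.A ⧸ Hw D U b w) =
        QuotientGroup.mk (gEl D g) := by
      have h5 := (Sigma.mk.inj_iff.mp h3).2
      exact eq_of_heq h5
    have h6 := (QuotientGroup.eq.mp h4.symm : (gEl D g)⁻¹ * gEl D (y ++ g) ∈ Hw D U b w)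
    rw [gEl_append, hy, show (gEl D g)⁻¹ * (gEl D g * gR D.m u * (gEl D g)⁻¹ * gEl D g) =
      gR D.m u by group] at h6
    obtain ⟨i, k, hk, he⟩ := (mem_Hw D U b).mp h6
    rw [rho_gR, if_pos hu1] at he
    have h7 := congrArg (rho D (pZ D (pZ D U b) (D.β w))ᶜ) he
    rw [map_mul, rho_gR, if_pos (Finset.mem_compl.mpr hu3),
      rho_zpow_in D (Finset.mem_compl.mpr (b_notMem_pZ D (pZ D U b) (D.β w))),
      rho_disj D disjoint_compl_left hk, mul_one] at h7
    have h8 := (tame D).i2 u w 1 (-i) hu2 (by rw [zpow_one, h7]; group)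
    omega

/-- central elements and a block which is not exceptional -/
theorem cen_b (b : Fin D.r) (v0 : Fin D.n) (hv0 : D.β v0 = b)
    (w0 : Fin D.n) (hw0 : D.β w0 ≠ b) (hR0 : D.R b (D.β w0) = false)
    (hNE : ∀ v w : Fin D.n, D.β v = b → D.β w ≠ b → D.R b (D.β w) = false → D.m v w ≠ 0 →
      ∃ u : Fin D.n, D.β u ≠ b ∧ u ≠ w ∧
        (D.R b (D.β u) = false ∨ D.β u = D.β w ∨ D.R (D.β w) (D.β u) = false))
    (z : D.A) (hz : ∀ x : D.A, x * z = z * x) :
    z ∈ par D (pZ D (Finset.univ.erase b) b) := by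
  set U : Finset (Fin D.r) := Finset.univ.erase b with hU
  have hb : b ∉ U := Finset.notMem_erase b _
  have hmem : ∀ c, c ∈ U ↔ c ≠ b := fun c => by rw [hU]; simp
  have hnZ : ∀ c, c ∉ pZ D U b ↔ (c = b ∨ D.R b c = false) := fun c => by
    rw [mem_pZ, hmem]
    rcases hR : D.R b c with _ | _
    · simp
    · simp
  have hS : SysOK D U b := Asm.sysall D U b hb ⟨v0, hv0⟩
  obtain ⟨u, hu⟩ := gEl_surj D z
  obtain ⟨code, hc, hval⟩ := Asm.code D U b hb hS u
  have hins : insert b U = Finset.univ := by
    ext c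
    simp only [Finset.mem_insert, hmem, Finset.mem_univ, iff_true]
    exact em _
  rw [hins, rho_univ, hu] at hval
  have hcom : ∀ y : W (Fin D.n), gEl D (flt D U y) * gEl D (code.flatMap (valS D U b)) =
      gEl D (code.flatMap (valS D U b)) * gEl D (flt D U y) := by
    intro y
    have e1 := hz (gEl D (flt D U y))
    have e2 := congrArg (rho D U) e1
    rw [map_mul, map_mul, ← rho_gEl, rho_rho, Finset.inter_self, rho_gEl] at e2
    set k := gEl D (code.flatMap (valS D U b)) with hk
    set a := gEl D (flt D U y) with ha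
    have e3 : a * k * rho D U z = k * a * rho D U z := by
      calc a * k * rho D U z = a * z := by rw [mul_assoc, ← hval]
        _ = z * a := e1
        _ = k * rho D U z * a := by rw [← hval]
        _ = k * (rho D U z * a) := mul_assoc _ _ _
        _ = k * (a * rho D U z) := by rw [← e2]
        _ = k * a * rho D U z := (mul_assoc _ _ _).symm
    exact mul_right_cancel e3
  have hnil := code_nil D U b hb hS w0 ((hmem _).mpr hw0) ((hnZ _).mpr (Or.inr hR0)) (by
    intro v w hw
    obtain ⟨t, ht1, ht2, ht3⟩ := hNE v w hw.1 hw.2.2.1 hw.2.2.2.1 hw.2.2.2.2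
    refine ⟨t, (hmem _).mpr ht1, ht2, ?_⟩
    intro hin
    obtain ⟨h1, h2, h3⟩ := (mem_pZ D (pZ D U b) (D.β w)).mp hin
    obtain ⟨-, -, h4⟩ := (mem_pZ D U b).mp h1
    rcases ht3 with h | h | h
    · rw [h4] at h; exact Bool.noConfusion h
    · exact h2 h
    · rw [h3] at h; exact Bool.noConfusion h) code hc hcom
  rw [hnil] at hval
  have hzU : z ∈ par D U := by
    rw [mem_par]
    have : gEl D (([] : List (Sy D)).flatMap (valS D U b)) = 1 := rfl
    rw [this, one_mul] at hval
    exact hval.symm
  refine (Asm.ns D U b hb hS).1 v0 z 1 hv0 hzU one_ne_zero ?_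
  rw [hz (gR D.m v0 ^ (1 : ℤ))]
  group

/-- an element which for every letter is in a parabolic subgroup without its block is trivial -/
lemma triv (z : D.A) (h : ∀ s : Fin D.n, ∃ P : Finset (Fin D.r), D.β s ∉ P ∧ z ∈ par D P) :
    z = 1 := by
  have h1 : ∀ T : Finset (Fin D.n), ∃ P : Finset (Fin D.r), (∀ s ∈ T, D.β s ∉ P) ∧
      z ∈ par D P := by
    intro T
    induction T using Finset.induction_on with
    | empty => exact ⟨Finset.univ, by simp, (rho_univ D z)⟩
    | insert s T hs ih =>
      obtain ⟨P, hP, hzP⟩ := ih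
      obtain ⟨Q, hQ, hzQ⟩ := h s
      refine ⟨P ∩ Q, ?_, ?_⟩
      · intro t ht
        rcases Finset.mem_insert.mp ht with rfl | ht
        · exact fun h' => hQ (Finset.mem_inter.mp h').2
        · exact fun h' => hP t ht (Finset.mem_inter.mp h').1
      · rw [mem_par, ← rho_rho, rho_of_par D hzQ, rho_of_par D hzP]
  obtain ⟨P, hP, hzP⟩ := h1 Finset.univ
  obtain ⟨u, hu⟩ := gEl_surj D z
  have h2 : flt D P u = [] := by
    unfold flt
    rw [List.filter_eq_nil_iff]
    intro a _
    simpa using hP a.1 (Finset.mem_univ _)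
  rw [← rho_of_par D hzP, ← hu, rho_gEl, h2, gEl_nil]

/-- the centre over a connected graph of at least two blocks -/
theorem cen_main (hn : 3 ≤ D.n ∨ ∃ i j : Fin D.n, i ≠ j ∧ D.m i j = 0)
    (hcon : ∀ T : Finset (Fin D.n), T.Nonempty → Tᶜ.Nonempty →
      ∃ s ∈ T, ∃ t ∈ Tᶜ, D.m s t ≠ 2)
    (h2 : ∃ s t : Fin D.n, D.β s ≠ D.β t)
    (z : D.A) (hz : ∀ x : D.A, x * z = z * x) : z = 1 := by
  refine triv D z fun s => ?_
  set b := D.β s with hbdef
  have hRf : ∀ s t : Fin D.n, D.β s ≠ D.β t → D.m s t ≠ 2 → D.R (D.β s) (D.β t) = false := by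
    intro s t hst hm
    rcases hR : D.R (D.β s) (D.β t) with _ | _
    · rfl
    · exact absurd (D.com s t hst hR) hm
  by_cases hNE : ∀ v w : Fin D.n, D.β v = b → D.β w ≠ b → D.R b (D.β w) = false → D.m v w ≠ 0 →
      ∃ u : Fin D.n, D.β u ≠ b ∧ u ≠ w ∧
        (D.R b (D.β u) = false ∨ D.β u = D.β w ∨ D.R (D.β w) (D.β u) = false)
  · refine ⟨pZ D (Finset.univ.erase b) b, b_notMem_pZ D _ b, ?_⟩
    obtain ⟨t, ht, t', ht', hm⟩ := hcon (Finset.univ.filter fun t => D.β t = b)
      ⟨s, by simp [hbdef]⟩ (by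
        obtain ⟨x, y, hxy⟩ := h2
        by_cases hx : D.β x = b
        · refine ⟨y, ?_⟩
          simp only [Finset.mem_compl, Finset.mem_filter, Finset.mem_univ, true_and]
          exact fun h => hxy (hx.trans h.symm)
        · exact ⟨x, by simpa using hx⟩)
    simp only [Finset.mem_compl, Finset.mem_filter, Finset.mem_univ, true_and] at ht ht'
    have hR := hRf t t' (by rw [ht]; exact fun h => ht' h.symm) hm
    rw [ht] at hR
    exact cen_b D b s rfl t' ht' hR hNE z hz
  · push Not at hNE
    obtain ⟨v, w, hv, hw, hR, hm0, hall⟩ := hNE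
    have hall' : ∀ u : Fin D.n, D.β u = b ∨ u = w := by
      by_contra hcon'
      push Not at hcon'
      obtain ⟨u0, hu0, hu0'⟩ := hcon'
      obtain ⟨t, ht, t', ht', hm⟩ := hcon (Finset.univ.filter fun t => D.β t = b ∨ t = w)
        ⟨s, by simp [hbdef]⟩ ⟨u0, by simp [hu0, hu0']⟩
      simp only [Finset.mem_compl, Finset.mem_filter, Finset.mem_univ, true_and, not_or]
        at ht ht'
      obtain ⟨h1, h2, h3⟩ := hall t' ht'.1 ht'.2
      rcases ht with ht | rfl
      · have hR := hRf t t' (by rw [ht]; exact fun h => ht'.1 h.symm) hm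
        rw [ht] at hR
        exact h1 hR
      · exact h3 (hRf t t' (fun h => h2 h.symm) hm)
    refine ⟨pZ D (Finset.univ.erase (D.β w)) (D.β w), ?_, ?_⟩
    · intro hin
      have h1 := ((mem_pZ D _ _).mp hin).2.2
      rw [D.Rsymm, hR] at h1
      exact Bool.noConfusion h1
    · refine cen_b D (D.β w) w rfl s (by rw [← hbdef]; exact fun h => hw h.symm)
        (by rw [← hbdef, D.Rsymm]; exact hR) ?_ z hz
      intro w' v' hw' hv' hR' hm'
      have hw'' : w' = w := by
        rcases hall' w' with h | h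
        · exact absurd (hw'.symm.trans h) hw
        · exact h
      have hvb : D.β v' = b := by
        rcases hall' v' with h | h
        · exact h
        · exact absurd (by rw [h]) hv'
      have hvw : v' ≠ w := fun h => hv' (by rw [h])
      obtain ⟨u, hu1, hu2⟩ : ∃ u : Fin D.n, u ≠ v' ∧ u ≠ w := by
        by_contra hno
        push Not at hno
        have hle : Fintype.card (Fin D.n) ≤ 2 := by
          have h1 : (Finset.univ : Finset (Fin D.n)) ⊆ {v', w} := by
            intro u _
            by_cases h : u = v'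
            · simp [h]
            · simp [hno u h]
          calc Fintype.card (Fin D.n) = (Finset.univ : Finset (Fin D.n)).card := rfl
            _ ≤ ({v', w} : Finset (Fin D.n)).card := Finset.card_le_card h1
            _ ≤ 2 := Finset.card_le_two
        rw [Fintype.card_fin] at hle
        rcases hn with hn | ⟨i, j, hij, h0⟩
        · omega
        · have hcase : ∀ u : Fin D.n, u = v' ∨ u = w := fun u => by
            by_cases h : u = v'
            · exact Or.inl h
            · exact Or.inr (hno u h)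
          rw [hw''] at hm'
          rcases hcase i with rfl | rfl <;> rcases hcase j with rfl | rfl
          · exact hij rfl
          · rw [D.symm] at hm'; exact hm' h0
          · exact hm' h0
          · exact hij rfl
      have hub : D.β u = b := (hall' u).resolve_right hu2
      exact ⟨u, by rw [hub]; exact fun h => hw h.symm, hu1, Or.inr (Or.inl (by rw [hub, hvb]))⟩

end Pool.Agent.H354.BG.Cen
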