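import Pool.Graph.R_pool_sql_team_seeded_f0cf7b00.H482R3.EB.Main

set_option autoImplicit false

/-! Project BG (helper354): word problem for Artin groups over a graph of blocks. Definitions.

The generators are divided into blocks. Two different blocks `a, b` either commute (`R a b`), or
all labels between them are even and at least 4, or infinite (`0`). For a set `U` of blocks the
retraction `rho U` kills all generators outside of `U`; its image is the parabolic subgroup
`par U`. For a block `b ∉ U` the kernel of `A_{U ∪ b} → A_U` is the colimit of a system of groups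
over a partial linear space without triangles (library modules `H482R3.EA`): with
`Z = {c ∈ U : R b c}`, the points are the pairs `(g A_Z, v)`, `g ∈ A_U`, `v ∈ b`; the block lines
are the cosets `g A_Z` with line group `A_b`; the cross lines are `(v, w, g ⟨w⟩ A_{Z ∩ w^⊥})` with
`v ∈ b`, `w ∈ U`, `w` in a block which does not commute with `b`, `m v w = 2 k` finite, with line
group free of rank `k`. -/

namespace Pool.Agent.H354.BG

open Pool.Agent.H482R3.EA (W inv ev PP xx evF cond1 cond2 Syl gOf Sys St Near InD Adm Act)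
open Pool.Agent.H482R3.EB (tot wp alt rels AR gR TR Tame Symm alt_length)

/-- block data; the label `0` stands for infinity -/
structure Dat where
  n : ℕ
  m : Fin n → Fin n → ℕ
  r : ℕ
  β : Fin n → Fin r
  R : Fin r → Fin r → Bool
  symm : ∀ s t, m s t = m t s
  ne1 : ∀ s t, s ≠ t → m s t ≠ 1
  Rsymm : ∀ a b, R a b = R b a
  com : ∀ s t, β s ≠ β t → R (β s) (β t) = true → m s t = 2
  cro : ∀ s t, β s ≠ β t → R (β s) (β t) = false → Even (m s t) ∧ m s t ≠ 2

lemma alt_two {S G : Type} [Group G] (f : S → G) (k : ℕ) : ∀ s t : S,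
    ((alt s t (2 * k)).map f).prod = (f s * f t) ^ k := by
  induction k with
  | zero => intro s t; simp [alt]
  | succ k ih =>
    intro s t
    have h : 2 * (k + 1) = (2 * k + 1) + 1 := by ring
    rw [h, alt, alt, List.map_cons, List.map_cons, List.prod_cons, List.prod_cons, ih s t,
      pow_succ', mul_assoc]

/-- the group -/
abbrev Dat.A (D : Dat) : Type := AR D.m

lemma rel_eq (D : Dat) (s t : Fin D.n) (h : s ≠ t) (h0 : D.m s t ≠ 0) :
    ((alt s t (D.m s t)).map (gR D.m)).prod = ((alt t s (D.m s t)).map (gR D.m)).prod := by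
  exact Pool.Agent.H482R3.EB.t_RELR.1 (Fin D.n) D.m s t h h0

lemma even_of_ne (D : Dat) (s t : Fin D.n) (h : D.β s ≠ D.β t) : ∃ k, D.m s t = 2 * k := by
  rcases hR : D.R (D.β s) (D.β t) with _ | _
  · obtain ⟨k, hk⟩ := (D.cro s t h hR).1
    exact ⟨k, by omega⟩
  · exact ⟨1, by rw [D.com s t h hR]⟩

/-- the retraction onto the blocks of `U` -/
noncomputable def rho (D : Dat) (U : Finset (Fin D.r)) : D.A →* D.A :=
  PresentedGroup.toGroup (f := fun s => if D.β s ∈ U then gR D.m s else 1) (by
    rintro r ⟨s, t, hst, h0, rfl⟩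
    rw [map_mul, map_inv, map_list_prod, map_list_prod, List.map_map, List.map_map]
    have h : (⇑(FreeGroup.lift fun s : Fin D.n => if D.β s ∈ U then gR D.m s else 1) ∘
        FreeGroup.of) = fun s => if D.β s ∈ U then gR D.m s else 1 := by
      funext a; simp
    rw [h, mul_inv_eq_one]
    by_cases hb : D.β s = D.β t
    · by_cases hU : D.β s ∈ U
      · have h1 : ∀ n : ℕ, ∀ a b : Fin D.n, D.β a ∈ U → D.β b ∈ U →
            (alt a b n).map (fun s => if D.β s ∈ U then gR D.m s else 1) =
              (alt a b n).map (gR D.m) := by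
          intro n
          induction n with
          | zero => intro a b _ _; rfl
          | succ n ih =>
            intro a b ha hb
            simp only [alt, List.map_cons]
            rw [ih b a hb ha, if_pos ha]
        rw [h1 _ _ _ hU (hb ▸ hU), h1 _ _ _ (hb ▸ hU) hU]
        exact rel_eq D s t hst h0
      · have h1 : ∀ n : ℕ, ∀ a b : Fin D.n, D.β a ∉ U → D.β b ∉ U →
            ((alt a b n).map (fun s => if D.β s ∈ U then gR D.m s else 1)).prod = 1 := by
          intro n
          induction n with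
          | zero => intro a b _ _; rfl
          | succ n ih =>
            intro a b ha hb
            simp only [alt, List.map_cons, List.prod_cons]
            rw [ih b a hb ha, if_neg ha, one_mul]
        rw [h1 _ _ _ hU (hb ▸ hU), h1 _ _ _ (hb ▸ hU) hU]
    · obtain ⟨k, hk⟩ := even_of_ne D s t hb
      rw [hk, alt_two, alt_two]
      have hc : Commute (if D.β s ∈ U then gR D.m s else 1 : D.A)
          (if D.β t ∈ U then gR D.m t else 1 : D.A) ∨ (D.β s ∈ U ∧ D.β t ∈ U) := by
        by_cases h1 : D.β s ∈ U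
        · by_cases h2 : D.β t ∈ U
          · exact Or.inr ⟨h1, h2⟩
          · left; rw [if_neg h2]; exact Commute.one_right _
        · left; rw [if_neg h1]; exact Commute.one_left _
      rcases hc with hc | ⟨h1, h2⟩
      · rw [hc.eq]
      · rw [if_pos h1, if_pos h2]
        have h3 := rel_eq D s t hst h0
        rw [hk, alt_two, alt_two] at h3
        exact h3)

/-- the exponent of the block `b` as a homomorphism -/
noncomputable def egh (D : Dat) (b : Fin D.r) : D.A →* Multiplicative ℤ :=
  PresentedGroup.toGroup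
    (f := fun s => Multiplicative.ofAdd (if D.β s = b then (1 : ℤ) else 0)) (by
    rintro r ⟨s, t, hst, h0, rfl⟩
    rw [map_mul, map_inv, map_list_prod, map_list_prod, List.map_map, List.map_map]
    have h : (⇑(FreeGroup.lift fun s : Fin D.n =>
        Multiplicative.ofAdd (if D.β s = b then (1 : ℤ) else 0)) ∘ FreeGroup.of) =
        fun s => Multiplicative.ofAdd (if D.β s = b then (1 : ℤ) else 0) := by
      funext a; simp
    rw [h, mul_inv_eq_one]
    by_cases hb : D.β s = D.β t
    · have h1 : ∀ n : ℕ, ∀ a c : Fin D.n, D.β a = D.β c →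
          ((alt a c n).map
            (fun s => Multiplicative.ofAdd (if D.β s = b then (1 : ℤ) else 0))).prod =
            (Multiplicative.ofAdd (if D.β a = b then (1 : ℤ) else 0)) ^ n := by
        intro n
        induction n with
        | zero => intro a c _; rw [pow_zero]; rfl
        | succ n ih =>
          intro a c hac
          simp only [alt, List.map_cons, List.prod_cons]
          rw [ih c a hac.symm, pow_succ', hac]
      rw [h1 _ _ _ hb, h1 _ _ _ hb.symm, hb]
    · obtain ⟨k, hk⟩ := even_of_ne D s t hb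
      rw [hk, alt_two, alt_two, mul_comm])

/-- the exponent of the block `b` -/
noncomputable def eg (D : Dat) (b : Fin D.r) (g : D.A) : ℤ := Multiplicative.toAdd (egh D b g)

/-- the parabolic subgroup of the blocks of `U` -/
def par (D : Dat) (U : Finset (Fin D.r)) : Subgroup D.A where
  carrier := {g | rho D U g = g}
  mul_mem' := by
    intro a b ha hb
    change rho D U (a * b) = a * b
    change rho D U a = a at ha
    change rho D U b = b at hb
    rw [map_mul, ha, hb]
  one_mem' := map_one _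
  inv_mem' := by
    intro a ha
    change rho D U a⁻¹ = a⁻¹
    change rho D U a = a at ha
    rw [map_inv, ha]

/-- the blocks of `U`, different from `b`, which commute with `b` -/
def pZ (D : Dat) (U : Finset (Fin D.r)) (b : Fin D.r) : Finset (Fin D.r) :=
  U.filter (fun c => c ≠ b ∧ D.R b c = true)

/-- the subword of the letters of the blocks of `U` -/
def flt (D : Dat) (U : Finset (Fin D.r)) (u : W (Fin D.n)) : W (Fin D.n) :=
  u.filter (fun a => decide (D.β a.1 ∈ U))

/-- the value of a word -/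
def gEl (D : Dat) (u : W (Fin D.n)) : D.A := ev (gR D.m) u

/-- the value of a letter -/
def lt (D : Dat) (a : Fin D.n × Bool) : D.A := if a.2 then gR D.m a.1 else (gR D.m a.1)⁻¹

lemma rho_gR (D : Dat) (U : Finset (Fin D.r)) (s : Fin D.n) :
    rho D U (gR D.m s) = if D.β s ∈ U then gR D.m s else 1 :=
  PresentedGroup.toGroup.of _

lemma egh_gR (D : Dat) (b : Fin D.r) (s : Fin D.n) :
    egh D b (gR D.m s) = Multiplicative.ofAdd (if D.β s = b then (1 : ℤ) else 0) :=
  PresentedGroup.toGroup.of _

/-- induction over the group -/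
lemma gind (D : Dat) (K : Subgroup D.A) (h : ∀ s, gR D.m s ∈ K) (g : D.A) : g ∈ K := by
  have h1 : Subgroup.closure (Set.range (gR D.m)) ≤ K := by
    rw [Subgroup.closure_le]
    rintro _ ⟨s, rfl⟩
    exact h s
  have h2 : Subgroup.closure (Set.range (gR D.m)) = ⊤ := PresentedGroup.closure_range_of _
  rw [h2] at h1
  exact h1 (Subgroup.mem_top g)

lemma rho_rho (D : Dat) (U U' : Finset (Fin D.r)) (g : D.A) :
    rho D U (rho D U' g) = rho D (U ∩ U') g := by
  have h := gind D (MonoidHom.eqLocus ((rho D U).comp (rho D U')) (rho D (U ∩ U'))) (fun s => by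
    show ((rho D U).comp (rho D U')) (gR D.m s) = rho D (U ∩ U') (gR D.m s)
    rw [MonoidHom.comp_apply, rho_gR, rho_gR]
    by_cases h1 : D.β s ∈ U'
    · rw [if_pos h1, rho_gR]
      by_cases h2 : D.β s ∈ U
      · rw [if_pos h2, if_pos (Finset.mem_inter.mpr ⟨h2, h1⟩)]
      · rw [if_neg h2, if_neg (fun h3 => h2 (Finset.mem_inter.mp h3).1)]
    · rw [if_neg h1, map_one, if_neg (fun h3 => h1 (Finset.mem_inter.mp h3).2)]) g
  exact h

lemma rho_mem (D : Dat) (U : Finset (Fin D.r)) (g : D.A) : rho D U g ∈ par D U := by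
  show rho D U (rho D U g) = rho D U g
  rw [rho_rho, Finset.inter_self]

/-- the retraction onto the block `b` with values in `par {b}` -/
noncomputable def rhoP (D : Dat) (b : Fin D.r) : D.A →* par D {b} :=
  (rho D {b}).codRestrict (par D {b}) (rho_mem D {b})

/-- elements of commuting blocks commute with the generator `w` -/
lemma comm_par (D : Dat) (P : Finset (Fin D.r)) (w : Fin D.n)
    (hP : ∀ c ∈ P, c ≠ D.β w ∧ D.R (D.β w) c = true) (g : D.A) :
    Commute (gR D.m w) (rho D P g) := by
  have h := gind D ((Subgroup.centralizer {gR D.m w}).comap (rho D P)) (fun s => by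
    rw [Subgroup.mem_comap, Subgroup.mem_centralizer_iff]
    intro x hx
    rw [Set.mem_singleton_iff] at hx
    subst hx
    rw [rho_gR]
    by_cases h1 : D.β s ∈ P
    · rw [if_pos h1]
      obtain ⟨h2, h3⟩ := hP _ h1
      have h4 := D.com w s (Ne.symm h2) h3
      have h5 := rel_eq D w s (fun h => h2 (by rw [h])) (by rw [h4]; decide)
      rw [h4, show (2 : ℕ) = 2 * 1 from rfl, alt_two, alt_two, pow_one, pow_one] at h5
      exact h5
    · rw [if_neg h1, mul_one, one_mul]) g
  rw [Subgroup.mem_comap, Subgroup.mem_centralizer_iff] at h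
  exact h _ rfl

lemma comm_pZ (D : Dat) (Z : Finset (Fin D.r)) (w : Fin D.n) (u : D.A)
    (hu : u ∈ par D (pZ D Z (D.β w))) : Commute (gR D.m w) u := by
  have h := comm_par D (pZ D Z (D.β w)) w (fun c hc => (Finset.mem_filter.mp hc).2) u
  rw [show rho D (pZ D Z (D.β w)) u = u from hu] at h
  exact h

/-- the subgroup `⟨w⟩ A_{Z ∩ w^⊥}` -/
def lsub (D : Dat) (Z : Finset (Fin D.r)) (w : Fin D.n) : Subgroup D.A where
  carrier := {g | ∃ (i : ℤ) (u : D.A), u ∈ par D (pZ D Z (D.β w)) ∧ g = gR D.m w ^ i * u}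
  mul_mem' := by
    rintro _ _ ⟨i, u, hu, rfl⟩ ⟨j, u', hu', rfl⟩
    refine ⟨i + j, u * u', Subgroup.mul_mem _ hu hu', ?_⟩
    have h := (comm_pZ D Z w u hu).zpow_left j
    rw [zpow_add, mul_assoc, mul_assoc, ← mul_assoc u, ← h.eq]
    group
  one_mem' := ⟨0, 1, Subgroup.one_mem _, by simp⟩
  inv_mem' := by
    rintro _ ⟨i, u, hu, rfl⟩
    refine ⟨-i, u⁻¹, Subgroup.inv_mem _ hu, ?_⟩
    have h := (comm_pZ D Z w u hu).zpow_left i
    rw [h.eq, mul_inv_rev, zpow_neg]

/-! ## the system of `(U, b)` -/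

section sys

variable (D : Dat) (U : Finset (Fin D.r)) (b : Fin D.r)

/-- the cosets of `H0` are the cosets of `A_Z` in `A_U` (`Z = pZ U b`) -/
noncomputable def H0 : Subgroup D.A := (par D (pZ D U b)).comap (rho D U)

/-- the cosets of `Hw` are the cosets of `⟨w⟩ A_{Z ∩ w^⊥}` in `A_U` (`Z = pZ U b`) -/
noncomputable def Hw (w : Fin D.n) : Subgroup D.A := (lsub D (pZ D U b) w).comap (rho D U)

/-- half of the label -/
def kk (v w : Fin D.n) : ℕ := D.m v w / 2

/-- the pairs `(v, w)` which have cross lines -/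
def okL (v w : Fin D.n) : Prop :=
  D.β v = b ∧ D.β w ∈ U ∧ D.β w ≠ b ∧ D.R b (D.β w) = false ∧ D.m v w ≠ 0

instance (v w : Fin D.n) : Decidable (okL D U b v w) := by unfold okL; infer_instance

def LI : Type := {i : Fin D.n × Fin D.n // okL D U b i.1 i.2}

abbrev Pt : Type := (D.A ⧸ H0 D U b) × {v : Fin D.n // D.β v = b}

def Ln : Type := (D.A ⧸ H0 D U b) ⊕ (Σ i : LI D U b, D.A ⧸ Hw D U b i.1.2)

def LG : Ln D U b → Type
  | .inl _ => par D {b}
  | .inr q => FreeGroup (Fin (kk D q.1.1.1 q.1.1.2))

instance instGrpLG : ∀ l : Ln D U b, Group (LG D U b l)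
  | .inl _ => inferInstanceAs (Group (par D {b}))
  | .inr q => inferInstanceAs (Group (FreeGroup (Fin (kk D q.1.1.1 q.1.1.2))))

def Ix : Pt D U b → Ln D U b → Prop
  | p, .inl g => p.1 = g
  | p, .inr q => p.2.1 = q.1.1.1 ∧ ∃ g : D.A, p.1 = QuotientGroup.mk g ∧ q.2 = QuotientGroup.mk g

noncomputable def xl : (l : Ln D U b) → Pt D U b → LG D U b l
  | .inl _ => fun p => rhoP D b (gR D.m p.2.1)
  | .inr q => fun p => xx _ (eg D (D.β q.1.1.2) ((q.2.out : D.A)⁻¹ * p.1.out))

/-- all axioms of a system for these data -/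
structure SysOK : Prop where
  P0 : ∀ p : Pt D U b, ∃ l, Ix D U b p l
  Λ0 : ∀ l : Ln D U b, ∃ p, Ix D U b p l
  X0 : ∀ (l : Ln D U b) (p : Pt D U b) (n : ℤ), Ix D U b p l → xl D U b l p ^ n = 1 → n = 0
  L1 : ∀ (l : Ln D U b) (p q : Pt D U b) (i j : ℤ), Ix D U b p l → Ix D U b q l → p ≠ q →
    xl D U b l p ^ i * xl D U b l q ^ j = 1 → i = 0 ∧ j = 0
  L2 : ∀ (l : Ln D U b) (p q r : Pt D U b) (i j d : ℤ), Ix D U b p l → Ix D U b q l →
    Ix D U b r l → p ≠ q → q ≠ r → p ≠ r →
    xl D U b l p ^ i * xl D U b l q ^ j * xl D U b l r ^ d = 1 → i = 0 ∧ j = 0 ∧ d = 0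
  G1 : ∀ (l m : Ln D U b) (p q : Pt D U b), l ≠ m → Ix D U b p l → Ix D U b q l →
    Ix D U b p m → Ix D U b q m → p = q
  G2 : ∀ (l m k : Ln D U b) (p q r : Pt D U b), l ≠ m → m ≠ k → k ≠ l →
    Ix D U b p l → Ix D U b p m → Ix D U b q m → Ix D U b q k → Ix D U b r k →
    Ix D U b r l → p = q

/-- the system -/
noncomputable def sysX (h : SysOK D U b) : Sys where
  P := Pt D U b
  Ln := Ln D U b
  I := Ix D U b
  L := LG D U b
  grp := instGrpLG D U b
  x := xl D U b
  P0 := h.P0
  Λ0 := h.Λ0
  X0 := h.X0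
  L1 := h.L1
  L2 := h.L2
  G1 := h.G1
  G2 := h.G2

end sys

/-! ## words and codes -/

section codes

variable (D : Dat) (U : Finset (Fin D.r)) (b : Fin D.r)

/-- syllables: `.inl (g, v, sign, n)` is the point syllable `g v^{± n} g⁻¹`,
`.inr (.inl (g, y))` is the block line syllable `g y g⁻¹` (`y` a word over the block `b`),
`.inr (.inr (g, v, w, y))` is the cross line syllable `g y g⁻¹` (`y` a word in the
`w ^ r v w ^ -r`) -/
abbrev Sy : Type := Syl (Fin D.n) (Fin D.n)

/-- the points of `g'` and `g` are equal: `g' A_Z = g A_Z` -/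
def sameP (g' g : W (Fin D.n)) : Prop := (gEl D g')⁻¹ * gEl D g ∈ H0 D U b

/-- the lines `(·, w, g')` and `(·, w, g)` are equal -/
def sameL (w : Fin D.n) (g' g : W (Fin D.n)) : Prop := (gEl D g')⁻¹ * gEl D g ∈ Hw D U b w

/-- the point of `g` is on the line `(·, w, g')` -/
def onL (w : Fin D.n) (g' g : W (Fin D.n)) : Prop :=
  ∃ (i : ℤ) (h : D.A), h ∈ par D (pZ D U b) ∧
    rho D U ((gEl D g')⁻¹ * gEl D g) = gR D.m w ^ i * h

/-- the points of `g'` and `g` are on a common line of type `w` -/
def dcs (w : Fin D.n) (g' g : W (Fin D.n)) : Prop :=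
  ∃ (i : ℤ) (h₁ h₂ : D.A), h₁ ∈ par D (pZ D U b) ∧ h₂ ∈ par D (pZ D U b) ∧
    rho D U ((gEl D g')⁻¹ * gEl D g) = h₁ * gR D.m w ^ i * h₂

/-- the point `(g, v)` is on a line of the state of the syllable -/
def NearW (g : W (Fin D.n)) (v : Fin D.n) : Option (Sy D) → Prop
  | none => False
  | some (.inl (g', v', _, _)) =>
      sameP D U b g' g ∨ (v = v' ∧ ∃ w, okL D U b v w ∧ dcs D U b w g' g)
  | some (.inr (.inl (g', _))) => sameP D U b g' g
  | some (.inr (.inr (g', v', w', _))) => v = v' ∧ onL D U b w' g' g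

/-- the block line of `g` is in the state -/
def InDB (g : W (Fin D.n)) : Option (Sy D) → Prop
  | none => False
  | some (.inl (g', _, _, _)) => sameP D U b g' g
  | some (.inr (.inl (g', _))) => sameP D U b g' g
  | some (.inr (.inr _)) => False

/-- the cross line `(v, w, g)` is in the state -/
def InDL (g : W (Fin D.n)) (v w : Fin D.n) : Option (Sy D) → Prop
  | none => False
  | some (.inl (g', v', _, _)) => v = v' ∧ onL D U b w g g'
  | some (.inr (.inl _)) => False
  | some (.inr (.inr (g', v', w', _))) => v = v' ∧ w = w' ∧ sameL D U b w g' g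

/-- admissibility of the syllable after the state of `s` -/
def AdmW (s : Option (Sy D)) : Sy D → Prop
  | .inl (g, v, _, n) => D.β v = b ∧ n ≠ 0 ∧ ¬ NearW D U b g v s
  | .inr (.inl (g, y)) => ¬ InDB D U b g s ∧
      (((∀ v, D.β v = b → ¬ NearW D U b g v s) ∧
        ∀ (v : Fin D.n) (i : ℤ), D.β v = b → rho D {b} (gEl D y) ≠ gR D.m v ^ i) ∨
       (∃ v, D.β v = b ∧ NearW D U b g v s ∧
        ∀ (v' : Fin D.n) (i j : ℤ), D.β v' = b →
          rho D {b} (gEl D y) ≠ gR D.m v ^ i * gR D.m v' ^ j))
  | .inr (.inr (g, v, w, y)) => okL D U b v w ∧ ¬ InDL D U b g v w s ∧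
      (((∀ j : ℤ, ¬ NearW D U b (g ++ wp w j) v s) ∧ cond1 (kk D v w) y) ∨
       (∃ j : ℤ, NearW D U b (g ++ wp w j) v s ∧ cond2 (kk D v w) j y))

/-- valid codes -/
def VC : Option (Sy D) → List (Sy D) → Prop
  | _, [] => True
  | s, a :: l => AdmW D U b s a ∧ VC (some a) l

/-- the word of one letter of a line word -/
def letF (k : ℕ) (v w : Fin D.n) (a : ℕ × Bool) : W (Fin D.n) :=
  List.replicate (a.1 % k) (w, true) ++ [(v, a.2)] ++ List.replicate (a.1 % k) (w, false)

/-- the word of a syllable -/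
def valS : Sy D → W (Fin D.n)
  | .inl (g, v, s, n) => flt D U g ++ List.replicate n (v, s) ++ inv (flt D U g)
  | .inr (.inl (g, y)) => flt D U g ++ flt D {b} y ++ inv (flt D U g)
  | .inr (.inr (g, v, w, y)) =>
      flt D U g ++ y.flatMap (letF D (kk D v w) v w) ++ inv (flt D U g)

/-- the letters of the syllable are in the right blocks, the label is finite -/
def okS : Sy D → Prop
  | .inl (_, v, _, _) => D.β v = b
  | .inr (.inl _) => True
  | .inr (.inr (_, v, w, _)) => okL D U b v w

def okO : Option (Sy D) → Prop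
  | none => True
  | some a => okS D U b a

end codes

/-! ## the action of words on `Ω × A` -/

section act

variable (D : Dat) (U : Finset (Fin D.r)) (b : Fin D.r) (h : SysOK D U b)
  (A : Act (sysX D U b h))

/-- one letter acting from the right -/
noncomputable def stepX (x : A.Ω × D.A) (a : Fin D.n × Bool) : A.Ω × D.A :=
  (A.act x.1 (Sum.inl (QuotientGroup.mk x.2) : Ln D U b) (rhoP D b (lt D a) : par D {b}),
    x.2 * rho D {b}ᶜ (lt D a))

noncomputable def runX (u : W (Fin D.n)) (x : A.Ω × D.A) : A.Ω × D.A := u.foldl (stepX D U b h A) x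

/-- state of a syllable -/
noncomputable def stO : Option (Sy D) → St (sysX D U b h)
  | none => .none
  | some (.inl (g, v, _, _)) =>
      if hv : D.β v = b then .pt ((QuotientGroup.mk (gEl D g), ⟨v, hv⟩) : Pt D U b) else .none
  | some (.inr (.inl (g, _))) => .ln (Sum.inl (QuotientGroup.mk (gEl D g)) : Ln D U b)
  | some (.inr (.inr (g, v, w, _))) =>
      if hc : okL D U b v w then
        .ln (Sum.inr ⟨(⟨(v, w), hc⟩ : LI D U b), QuotientGroup.mk (gEl D g)⟩ : Ln D U b)
      else .none

/-- line and group element of a syllable -/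
noncomputable def lyO : Sy D → Σ l : Ln D U b, LG D U b l
  | .inl (g, v, s, n) => ⟨Sum.inl (QuotientGroup.mk (gEl D g)), (rhoP D b (lt D (v, s)) ^ n :
      par D {b})⟩
  | .inr (.inl (g, y)) => ⟨Sum.inl (QuotientGroup.mk (gEl D g)), (rhoP D b (gEl D y) :
      par D {b})⟩
  | .inr (.inr (g, v, w, y)) =>
      if hc : okL D U b v w then
        ⟨Sum.inr ⟨(⟨(v, w), hc⟩ : LI D U b), QuotientGroup.mk (gEl D g)⟩,
          (ev (fun r : ℕ => xx (kk D v w) (((r % kk D v w : ℕ) : ℤ) +
            eg D (D.β w) (((QuotientGroup.mk (gEl D g) :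
              D.A ⧸ Hw D U b w).out)⁻¹ * gEl D g))) y :
            FreeGroup (Fin (kk D v w)))⟩
      else ⟨Sum.inl (QuotientGroup.mk 1), (1 : par D {b})⟩

/-- the normal form of a code -/
noncomputable def om (code : List (Sy D)) : A.Ω :=
  code.foldl (fun ω a => A.act ω (lyO D U b a).1 (lyO D U b a).2) A.one

end act

end Pool.Agent.H354.BG
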