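import Pool.Agent.H354.BG.Stm
import Pool.Agent.H800.BG.NS
import Pool.Agent.H618.BG.F
import Pool.Agent.H229.BG.GG
import Pool.Agent.H230.BG.LX
import Pool.Agent.H36.BG.SYSALL
import Pool.Agent.H289.BG.ACT
import Pool.Agent.H727.BG.VAL
import Pool.Agent.H297.BG.SND
import Pool.Agent.H187.BG.DIC
import Pool.Agent.H337.BG.SEM1
import Pool.Agent.H38.BG.SEM2
import Pool.Agent.H671.BG.RUN
import Pool.Agent.H199.BG.OM
import Pool.Agent.H59.BG.CERT
import Pool.Agent.H909.BG.SHPA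
import Pool.Agent.H23.BG.SHPB
import Pool.Agent.H658.BG.BAS
import Pool.Agent.H935.BG.SAMEC
import Pool.Agent.H807.BG.DCSC
import Pool.Agent.H415.BG.NEARC
import Pool.Agent.H47.BG.NBD
import Pool.Agent.H105.BG.MEET
import Pool.Agent.H746.BG.ADM2
import Pool.Agent.H662.BG.ADM3
import Pool.Agent.H665.BG.ADM
import Pool.Agent.H349.BG.VALC
import Pool.Agent.H379.BG.STEPW
import Pool.Agent.H167.BG.SHC
import Pool.Agent.H379.BG.R12
import Pool.Agent.H333.BG.R3
import Pool.Agent.H34.BG.ALL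
import Pool.Agent.H881.BG.BLK
import Pool.Agent.H763.BG.FIN

set_option autoImplicit false

/-! Project BG (helper354): assembly. -/

namespace Pool.Agent.H354.BG.Asm

open Pool.Agent.H354.BG

theorem actx : S_ACTX := Pool.Agent.H289.BG.ACT.t_ACTX
theorem ns : S_NS := Pool.Agent.H800.BG.NS.t_NS actx
theorem f : S_F := Pool.Agent.H618.BG.F.t_F
theorem gg : S_GG := Pool.Agent.H229.BG.GG.t_GG
theorem lx : S_LX := Pool.Agent.H230.BG.LX.t_LX
theorem sysall : S_SYSALL := Pool.Agent.H36.BG.SYSALL.t_SYSALL ns f gg lx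
theorem valx : S_VALX := Pool.Agent.H727.BG.VAL.t_VALX
theorem snd : S_SND := Pool.Agent.H297.BG.SND.t_SND
theorem vrho : S_VRHO := Pool.Agent.H297.BG.SND.t_VRHO
theorem dicx : S_DICX := Pool.Agent.H187.BG.DIC.t_DICX
theorem sem1x : S_SEM1X := Pool.Agent.H337.BG.SEM1.t_SEM1X dicx
theorem adsx : S_ADSX := Pool.Agent.H337.BG.SEM1.t_ADSX dicx
theorem sem2x : S_SEM2X := Pool.Agent.H38.BG.SEM2.t_SEM2X dicx
theorem runx : S_RUNX := Pool.Agent.H671.BG.RUN.t_RUNX snd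
theorem om' : S_OM := Pool.Agent.H199.BG.OM.t_OM sem1x sem2x runx snd
theorem code : S_CODE := Pool.Agent.H59.BG.CERT.t_CODE om' valx snd vrho actx
theorem certx : S_CERTX := Pool.Agent.H59.BG.CERT.t_CERTX om' valx snd vrho actx
theorem shp : S_SHP := by
  intro D U b hb hs v hv c hc
  have h1 := Pool.Agent.H909.BG.SHPA.t_SHPA D U b hb v hv c hc
  have h2 := Pool.Agent.H23.BG.SHPB.t_SHPB om' adsx actx snd D U b hb hs v hv c hc
  exact ⟨⟨h2.1, h1.1⟩, ⟨h2.2, h1.2⟩⟩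
theorem basx : S_BASX := Pool.Agent.H658.BG.BAS.t_BASX
theorem samec : S_SAMEC := Pool.Agent.H935.BG.SAMEC.t_SAMEC basx
theorem dcsc : S_DCSC := Pool.Agent.H807.BG.DCSC.t_DCSC basx
theorem nearx : S_NEARX := Pool.Agent.H415.BG.NEARC.t_NEARX samec dcsc basx
theorem nbdx : S_NBDX := Pool.Agent.H47.BG.NBD.t_NBDX
theorem unij : S_UNIJ := Pool.Agent.H47.BG.NBD.t_UNIJ dicx
theorem meetx : S_MEETX := Pool.Agent.H105.BG.MEET.t_MEETX samec dcsc basx nbdx nearx
theorem adm2x : S_ADM2X := Pool.Agent.H746.BG.ADM2.t_ADM2X basx nearx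
theorem adm3x : S_ADM3X := Pool.Agent.H662.BG.ADM3.t_ADM3X basx nearx meetx unij
theorem admx : S_ADMX := Pool.Agent.H665.BG.ADM.t_ADMX nearx adm2x adm3x
theorem vcc : S_VCC := Pool.Agent.H665.BG.ADM.t_VCC admx
theorem valc : S_VALC := Pool.Agent.H349.BG.VALC.t_VALC
theorem reu : S_REU := Pool.Agent.H349.BG.VALC.t_REU
theorem stepw : S_STEPW := Pool.Agent.H379.BG.STEPW.t_STEPW certx vcc valc reu vrho basx
theorem shc : S_SHC := Pool.Agent.H167.BG.SHC.t_SHC samec basx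
theorem r12 : S_R12 := Pool.Agent.H379.BG.R12.t_R12 code shp vcc valc shc basx vrho
theorem r3 : S_R3 := Pool.Agent.H333.BG.R3.t_R3 basx reu
theorem all : S_ALL := Pool.Agent.H34.BG.ALL.t_ALL sysall ns stepw r12 r3
theorem blk : S_BLK := Pool.Agent.H881.BG.BLK.t_BLK basx
theorem fin : S_FIN := Pool.Agent.H763.BG.FIN.t_FIN all blk

end Pool.Agent.H354.BG.Asm
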