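import Pool.Agent.H354.BG.Basic

set_option autoImplicit false

/-! Project BG (helper354): the statements. Every task is `theorem t_XXX : S_XXX`, possibly from
hypotheses `(h : S_YYY)`. Basic lemmas are in `Basic.lean` (read it first). The library project
`Pool.Graph.R_pool_sql_team_seeded_f0cf7b00.H482R3.EB` (statements in `EB/Stm.lean`, all proofs
available, see `EB/Main.lean`) is the special case `U = W`, no commuting blocks (`Z = ∅`);
most of the tasks are adaptations of the proofs there. -/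

namespace Pool.Agent.H354.BG

open Pool.Agent.H482R3.EA (W inv ev PP xx evF cond1 cond2 Syl gOf Sys St Near InD Adm Act)
open Pool.Agent.H482R3.EB (tot wp alt rels AR gR TR Tame Symm alt_length)

/-! ## Structure of the system -/

/-- no relation with two or three syllables in the kernel of `A_{Z ∪ c} → A_Z` -/
def NSok (D : Dat) (Z : Finset (Fin D.r)) (c : Fin D.r) : Prop :=
  (∀ (w : Fin D.n) (h : D.A) (i : ℤ), D.β w = c → h ∈ par D Z → i ≠ 0 →
    gR D.m w ^ i * h * gR D.m w ^ (-i) * h⁻¹ = 1 → h ∈ par D (pZ D Z c)) ∧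
  (∀ (w : Fin D.n) (h₁ h₂ h₃ : D.A) (i j d : ℤ), D.β w = c → h₁ ∈ par D Z → h₂ ∈ par D Z →
    h₃ ∈ par D Z → i ≠ 0 → j ≠ 0 → d ≠ 0 →
    gR D.m w ^ i * h₁ * gR D.m w ^ j * h₂ * gR D.m w ^ d * h₃ = 1 →
    h₁ ∈ par D (pZ D Z c) ∨ h₂ ∈ par D (pZ D Z c) ∨ h₃ ∈ par D (pZ D Z c))

/-- the same for all `w` outside of `Z = pZ U b` -/
def Fok (D : Dat) (U : Finset (Fin D.r)) (b : Fin D.r) : Prop :=
  (∀ (w w' : Fin D.n) (h h' : D.A) (i j : ℤ), D.β w ∈ U → D.R b (D.β w) = false →
    D.β w' ∈ U → D.R b (D.β w') = false →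
    h ∈ par D (pZ D U b) → h' ∈ par D (pZ D U b) → i ≠ 0 →
    gR D.m w ^ i * h * gR D.m w' ^ j = h' →
    w = w' ∧ j = -i ∧ h ∈ par D (pZ D (pZ D U b) (D.β w))) ∧
  (∀ (w₁ w₂ w₃ : Fin D.n) (h₁ h₂ h₃ : D.A) (i j d : ℤ), D.β w₁ ∈ U → D.R b (D.β w₁) = false →
    D.β w₂ ∈ U → D.R b (D.β w₂) = false → D.β w₃ ∈ U → D.R b (D.β w₃) = false →
    h₁ ∈ par D (pZ D U b) → h₂ ∈ par D (pZ D U b) → h₃ ∈ par D (pZ D U b) →
    i ≠ 0 → j ≠ 0 → d ≠ 0 →
    gR D.m w₁ ^ i * h₁ * gR D.m w₂ ^ j * h₂ * gR D.m w₃ ^ d * h₃ = 1 →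
    w₁ = w₂ ∧ w₂ = w₃ ∧ (h₁ ∈ par D (pZ D (pZ D U b) (D.β w₁)) ∨
      h₂ ∈ par D (pZ D (pZ D U b) (D.β w₁)) ∨ h₃ ∈ par D (pZ D (pZ D U b) (D.β w₁))))

/-- NS. The normal form theorem for the system of `(Z, c)` excludes short relations.
Proof. Let `A` be the action (`Asm.nft`). Write the elements `h` as words over `Z`
(`gEl_surj`, `rho_gEl`), `p (h) = (mk h, w)` the points. The word
`h w^i h⁻¹` sends `(ω, 1)` to `(act ω (.inl mk h) (w^i), 1)` (as in library `EB/RUN`).
First statement: `w^i = h w^i h⁻¹` gives (t_ACTX: trivial words act trivially)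
`act one (.inl mk 1) (w^i) = act one (.inl mk h) (w^i)`; by `st_pt` the states are
`.pt (mk 1, w)` and `.pt (mk h, w)`, so `mk h = mk 1`, `h ∈ H0 D Z c`, which is the claim since
`h ∈ par Z`.
Second statement: put `p₁ = (mk 1, w)`, `p₂ = (mk h₁, w)`, `p₃ = (mk (h₁ h₂), w)`. Retracting to
`par Z` one has `h₁ h₂ h₃ = 1`, so the relation says `x₁^i x₂^j x₃^d = 1` and
`one · x₁^i = one · x₃^{-d} · x₂^{-j}`. If no conclusion holds the points are pairwise distinct
(`h₁`, `h₂`, `h₁ h₂ = h₃⁻¹` not in `par (pZ Z c)`). The state of the left side is `.pt p₁`. Right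
side: `one · x₃^{-d}` has state `.pt p₃`; if `p₂` is not near `p₃` the state is `.pt p₂`,
contradiction. Otherwise `p₂, p₃` are on a line `m` and by `act_pt`, `act_mul` the right side is
`act one m (x₃^{-d} x₂^{-j})`; by `L1`, `L2` this element of `L m` is not a power of a point of
`m`, so by `st_ln` the state is `.ln m`, contradiction. -/
def S_NS : Prop := ∀ (D : Dat) (Z : Finset (Fin D.r)) (c : Fin D.r), c ∉ Z → SysOK D Z c →
  NSok D Z c

/-- F. Proof. First statement: apply `rho {β w}`: if `β w' ≠ β w` then `w^i = 1`,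
contradiction (`gR_zpow_eq_one`; `h, h'` die since `β w ∉ pZ U b`). So `β w' = β w` and
`w^i w'^j = 1` in the block; `tame.i2` gives `w = w'`, then `i + j = 0`. Apply
`rho (pZ U b)`: `h = h'`. Now `NSok` for `c = β w`.
Second statement: apply `rho {β w_k}`: a block which contains only one of `w₁, w₂, w₃` gives
`w_k^… = 1`, contradiction. So all are in one block and `w₁^i w₂^j w₃^d = 1`; by `tame.i2`,
`tame.i3` and conjugation all are equal. Now `NSok` for `c = β w₁`. -/
def S_F : Prop := ∀ (D : Dat) (U : Finset (Fin D.r)) (b : Fin D.r), b ∉ U →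
  (∀ c ∈ U, D.R b c = false → NSok D (pZ D U b) c) → Fok D U b

/-- G1, G2. Proof. A point is on exactly one block line; a cross line `(v, w, g)` has on the
block line of `g'` at most one point (with second coordinate `v`). G1 for two cross lines with
two common points `(g, v)`, `(g', v)`: representatives of the lines can be changed so that the
first common point is `mk a` for the first line and `mk (a h)`, `h ∈ H0`, for the second
(`a` a representative of the first line, `a h` of the second), the second point is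
`mk (a t) = mk (a h t')` with `rho U t = w^i u`, `rho U t' = w'^j u'`, and `Fok.1` applies
(`i ≠ 0` since the points are different; `u` commutes with `w`). G2: if one of the lines is a
block line then the two points on it have the same second coordinate, and are equal, and
G1 applies to the other two lines; if all three are cross lines use `Fok.2` in the same way. -/
def S_GG : Prop := ∀ (D : Dat) (U : Finset (Fin D.r)) (b : Fin D.r), b ∉ U → Fok D U b →
  (∀ (l m : Ln D U b) (p q : Pt D U b), l ≠ m → Ix D U b p l → Ix D U b q l →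
    Ix D U b p m → Ix D U b q m → p = q) ∧
  (∀ (l m k : Ln D U b) (p q r : Pt D U b), l ≠ m → m ≠ k → k ≠ l →
    Ix D U b p l → Ix D U b p m → Ix D U b q m → Ix D U b q k → Ix D U b r k →
    Ix D U b r l → p = q)

/-- the line groups (adapt library `EB/LXB.lean`; uses `Asm.x3`, `tame D`). On a cross line the
position `eg (β w) (out⁻¹ * p.1.out)` determines the point: if `p.1 = mk g = mk (g' )`… two
points `mk (q t)`, `mk (q t')` with `rho U t = w^i u`, `rho U t' = w^j u'` and `i = j` are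
equal. -/
def S_LX : Prop := ∀ (D : Dat) (U : Finset (Fin D.r)) (b : Fin D.r), b ∉ U →
  (∀ (l : Ln D U b) (p : Pt D U b) (n : ℤ), Ix D U b p l → xl D U b l p ^ n = 1 → n = 0) ∧
  (∀ (l : Ln D U b) (p q : Pt D U b) (i j : ℤ), Ix D U b p l → Ix D U b q l → p ≠ q →
    xl D U b l p ^ i * xl D U b l q ^ j = 1 → i = 0 ∧ j = 0) ∧
  (∀ (l : Ln D U b) (p q r : Pt D U b) (i j d : ℤ), Ix D U b p l → Ix D U b q l →
    Ix D U b r l → p ≠ q → q ≠ r → p ≠ r →
    xl D U b l p ^ i * xl D U b l q ^ j * xl D U b l r ^ d = 1 → i = 0 ∧ j = 0 ∧ d = 0)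

/-- all systems satisfy the axioms. Proof: strong induction on `U.card` from `S_NS`, `S_F`,
`S_GG`, `S_LX`; for `c ∈ U` with `R b c = false`, `c ∉ pZ U b`, so `pZ U b` has fewer elements
than `U`; if the block `c` has no generators then `NSok` is vacuous. -/
def S_SYSALL : Prop := ∀ (D : Dat) (U : Finset (Fin D.r)) (b : Fin D.r), b ∉ U →
  (∃ v, D.β v = b) → SysOK D U b

/-! ## Action and values -/

/-- trivial words act trivially (adapt `EB/ACTB.lean`). Letters of the blocks outside of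
`U ∪ {b}` change only the second component by something killed by `rho U`; a letter `w` of
`pZ U b` does not change the block line `mk x.2`; for `okL v w` the relation `(v w)^k = (w v)^k`
holds since the points `(mk (x w^i), v)` are on the cross line of `mk x` and
`x_0 ⋯ x_{k-1} = x_1 ⋯ x_k` (`Asm.xx`). -/
def S_ACTX : Prop := ∀ (D : Dat) (U : Finset (Fin D.r)) (b : Fin D.r), b ∉ U →
  ∀ (h : SysOK D U b) (A : Act (sysX D U b h)) (u : W (Fin D.n)), gEl D u = 1 →
  ∀ x, runX D U b h A u x = x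

/-- the homomorphisms of the line groups (adapt `EC/PHI.lean`, `EB/VALB.lean`):
`φ (.inl g) y = rho U g * y * (rho U g)⁻¹` with `g = out`, `φ (cross line (v, w, g)) x_i =
rho U g * w^i v w^-i * (rho U g)⁻¹` (library `Asm.xh`), and the value map they give by `Act.val`;
`v (ω, g) = vΩ ω * rho U g` -/
def S_VALX : Prop := ∀ (D : Dat) (U : Finset (Fin D.r)) (b : Fin D.r), b ∉ U →
  ∀ (h : SysOK D U b) (A : Act (sysX D U b h)),
  ∃ v : A.Ω × D.A → D.A, v (A.one, 1) = 1 ∧
    ∀ (u : W (Fin D.n)) x, v (runX D U b h A u x) = v x * rho D (insert b U) (gEl D u)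

/-- second component of the action -/
def S_SND : Prop := ∀ (D : Dat) (U : Finset (Fin D.r)) (b : Fin D.r) (h : SysOK D U b)
  (A : Act (sysX D U b h)) (u : W (Fin D.n)) (x : A.Ω × D.A),
  (runX D U b h A u x).2 = x.2 * rho D {b}ᶜ (gEl D u) ∧
  ((∀ a ∈ u, D.β a.1 ≠ b) → runX D U b h A u x = (x.1, x.2 * gEl D u)) ∧
  (∀ u', runX D U b h A (u ++ u') x = runX D U b h A u' (runX D U b h A u x))

/-- dictionary between words and the system (adapt `EB/DICB.lean`) -/
def S_DICX : Prop := ∀ (D : Dat) (U : Finset (Fin D.r)) (b : Fin D.r), b ∉ U →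
  ∀ (h : SysOK D U b) (s : Option (Sy D)) (g : W (Fin D.n)), okO D U b s →
  (∀ (v : Fin D.n) (hv : D.β v = b), NearW D U b g v s ↔
    Near (sysX D U b h) ((QuotientGroup.mk (gEl D g), ⟨v, hv⟩) : Pt D U b) (stO D U b h s)) ∧
  (InDB D U b g s ↔ InD (sysX D U b h) (Sum.inl (QuotientGroup.mk (gEl D g)) : Ln D U b)
    (stO D U b h s)) ∧
  (∀ (v w : Fin D.n) (hc : okL D U b v w),
    (InDL D U b g v w s ↔ InD (sysX D U b h)
      (Sum.inr ⟨(⟨(v, w), hc⟩ : LI D U b), QuotientGroup.mk (gEl D g)⟩ : Ln D U b)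
      (stO D U b h s)))

/-- an admissible syllable gives the right state (adapt `EB/SEM1.lean`) -/
def S_SEM1X : Prop := ∀ (D : Dat) (U : Finset (Fin D.r)) (b : Fin D.r), b ∉ U →
  ∀ (h : SysOK D U b) (A : Act (sysX D U b h))
  (s : Option (Sy D)) (a : Sy D) (ω : A.Ω), okO D U b s → AdmW D U b s a →
  A.st ω = stO D U b h s →
  okS D U b a ∧ A.st (A.act ω (lyO D U b a).1 (lyO D U b a).2) = stO D U b h (some a)

/-- an admissible syllable is an admissible prolongation of the system -/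
def S_ADSX : Prop := ∀ (D : Dat) (U : Finset (Fin D.r)) (b : Fin D.r), b ∉ U →
  ∀ (h : SysOK D U b) (s : Option (Sy D)) (a : Sy D), okO D U b s → AdmW D U b s a →
  Adm (sysX D U b h) (stO D U b h s) (lyO D U b a).1 (lyO D U b a).2

/-- every admissible prolongation comes from an admissible syllable (adapt `EC/SEM2B.lean`) -/
def S_SEM2X : Prop := ∀ (D : Dat) (U : Finset (Fin D.r)) (b : Fin D.r), b ∉ U →
  ∀ (h : SysOK D U b) (s : Option (Sy D)) (l : Ln D U b) (y : LG D U b l), okO D U b s →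
  Adm (sysX D U b h) (stO D U b h s) l y → ∃ a : Sy D, AdmW D U b s a ∧
    ∀ (A : Act (sysX D U b h)) (ω : A.Ω),
      A.act ω l y = A.act ω (lyO D U b a).1 (lyO D U b a).2

/-- the word of a syllable acts like the syllable (adapt `EB/RUN.lean`) -/
def S_RUNX : Prop := ∀ (D : Dat) (U : Finset (Fin D.r)) (b : Fin D.r), b ∉ U →
  ∀ (h : SysOK D U b) (A : Act (sysX D U b h)) (a : Sy D) (ω : A.Ω), okS D U b a →
  runX D U b h A (valS D U b a) (ω, 1) = (A.act ω (lyO D U b a).1 (lyO D U b a).2, 1)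

/-- values of valid syllables are in `par (insert b U)` and are killed by `rho U` -/
def S_VRHO : Prop := ∀ (D : Dat) (U : Finset (Fin D.r)) (b : Fin D.r), b ∉ U →
  ∀ (a : Sy D), okS D U b a →
  rho D (insert b U) (gEl D (valS D U b a)) = gEl D (valS D U b a) ∧
  rho D U (gEl D (valS D U b a)) = 1

/-- codes and normal forms: state of a valid code, the word of the code acts like the code, and
every normal form has a valid code -/
def S_OM : Prop := ∀ (D : Dat) (U : Finset (Fin D.r)) (b : Fin D.r), b ∉ U →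
  ∀ (h : SysOK D U b) (A : Act (sysX D U b h)),
  (∀ code, VC D U b none code → (∀ a ∈ code, okS D U b a) ∧
    A.st (om D U b h A code) = stO D U b h code.getLast? ∧
    runX D U b h A (code.flatMap (valS D U b)) (A.one, 1) = (om D U b h A code, 1)) ∧
  (∀ ω : A.Ω, ∃ code, VC D U b none code ∧ om D U b h A code = ω)

/-- existence of codes. Proof: for `u' = flt (insert b U) u` let `(ω, g) = runX u' (one, 1)`,
take a valid code of `ω` (`S_OM`) and a word of `rho {b}ᶜ (gEl u')`, and compare the values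
(`S_VALX`). -/
def S_CODE : Prop := ∀ (D : Dat) (U : Finset (Fin D.r)) (b : Fin D.r), b ∉ U → SysOK D U b →
  ∀ u : W (Fin D.n), ∃ code : List (Sy D), VC D U b none code ∧
    rho D (insert b U) (gEl D u) =
      gEl D (code.flatMap (valS D U b)) * rho D U (gEl D u)

/-- certificates (adapt `EB/CERT.lean`) -/
def S_CERTX : Prop := ∀ (D : Dat) (U : Finset (Fin D.r)) (b : Fin D.r), b ∉ U → SysOK D U b →
  ∀ u : W (Fin D.n), rho D (insert b U) (gEl D u) ≠ 1 ↔
    ∃ code : List (Sy D), VC D U b none code ∧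
      rho D (insert b U) (gEl D u) =
        gEl D (code.flatMap (valS D U b)) * rho D U (gEl D u) ∧
      (code ≠ [] ∨ rho D U (gEl D u) ≠ 1)

/-! ## Recognition of products of at most two point syllables -/

def P1 (D : Dat) (U : Finset (Fin D.r)) (b : Fin D.r) (u : W (Fin D.n)) (v : Fin D.n) : Prop :=
  ∃ (i : ℤ) (h₁ h₂ : D.A), h₁ ∈ par D U ∧ h₂ ∈ par D U ∧
    rho D (insert b U) (gEl D u) = h₁ * gR D.m v ^ i * h₂

def P2 (D : Dat) (U : Finset (Fin D.r)) (b : Fin D.r) (u : W (Fin D.n)) (v : Fin D.n) : Prop :=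
  ∃ (j i : ℤ) (h₁ h₂ : D.A), h₁ ∈ par D U ∧ h₂ ∈ par D U ∧
    rho D (insert b U) (gEl D u) = gR D.m v ^ j * h₁ * gR D.m v ^ i * h₂

def P3 (D : Dat) (U : Finset (Fin D.r)) (b : Fin D.r) (u : W (Fin D.n)) (v : Fin D.n) : Prop :=
  ∃ j i : ℤ, rho D (insert b U) (gEl D u) =
    gR D.m v ^ j * rho D U (gEl D u) * gR D.m v ^ i

/-- shapes of the codes of `h v^i h⁻¹` -/
def Sh1 (D : Dat) (v : Fin D.n) (code : List (Sy D)) : Prop :=
  code = [] ∨ ∃ (g : W (Fin D.n)) (s : Bool) (n : ℕ), code = [.inl (g, v, s, n)]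

/-- shapes of the codes of `v^j h v^i h⁻¹` -/
def Sh2 (D : Dat) (U : Finset (Fin D.r)) (b : Fin D.r) (v : Fin D.n) (code : List (Sy D)) :
    Prop :=
  Sh1 D v code ∨
  (∃ (g : W (Fin D.n)) (s : Bool) (n : ℕ) (g' : W (Fin D.n)) (s' : Bool) (n' : ℕ),
    code = [.inl (g, v, s, n), .inl (g', v, s', n')] ∧ sameP D U b g []) ∨
  (∃ (g : W (Fin D.n)) (w : Fin D.n) (y : W ℕ), code = [.inr (.inr (g, v, w, y))] ∧
    onL D U b w g [] ∧ ¬ cond2 (kk D v w) (- eg D (D.β w) (gEl D g)) y)

/-- SHAPE 1, 2. Proof. (←) direct (for the last shape: the base point `(mk 1, v)` has index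
`t = - eg (β w) g` on the line of `g`, and `y = x_t^a x_s^b`, whose value is
`v^a · h v^b h⁻¹` with `h = rho U (g) w^s`; note `P2` needs `z = v^j h v^i h⁻¹`).
(→) Let `A` be the action, `ω = om code`; `z = value` acts by `(one,1) ↦ (ω, 1)` (`S_OM`).
If `z = h v^i h⁻¹` then `ω = one · x_q^i` with `q = (mk h, v)`; if `i = 0` then `ω = one` and the
code is empty (state of a non-empty valid code is not `.none`). If `i ≠ 0` the state is `.pt q`,
so the last syllable of the code is a point syllable at `q`, exponent `n`; removing it,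
`ω' = one · x_q^{i-n}`, and since `q` is not near the state of `ω'` (admissibility), `i = n`,
`ω' = one`, the code has length 1. Note that the point syllable has letter `v` (equality of
points). If `z = v^j h v^i h⁻¹`, `p = (mk 1, v)`, `q = (mk h, v)`, `i, j ≠ 0`, `p ≠ q`
(otherwise the first case): if `q` is not near `.pt p` then the state is `.pt q` and the last
syllable is at `q`, with exponent `i` (else remove it: the state of
`one · x_p^j x_q^{i-n}` is `.pt q`, near `q`), and the rest is a code of `one · x_p^j`, first case.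
If `p, q` are on a line `m` (a cross line, since block lines have one point for each `v`), then
`ω = act one m (x_p^j x_q^i)`, the state is `.ln m`, the last syllable is `(m, y)` and the rest is
a code of `one · (x_p^j x_q^i y⁻¹)`; if this element is not 1 its state contains the line `m`,
against admissibility; so the code is `[(m, y)]` with `y = x_p^j x_q^i`. -/
def S_SHP : Prop := ∀ (D : Dat) (U : Finset (Fin D.r)) (b : Fin D.r), b ∉ U → SysOK D U b →
  ∀ (v : Fin D.n), D.β v = b → ∀ code : List (Sy D), VC D U b none code →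
  ((∃ (i : ℤ) (h : D.A), h ∈ par D U ∧
      gEl D (code.flatMap (valS D U b)) = h * gR D.m v ^ i * h⁻¹) ↔ Sh1 D v code) ∧
  ((∃ (j i : ℤ) (h : D.A), h ∈ par D U ∧
      gEl D (code.flatMap (valS D U b)) = gR D.m v ^ j * h * gR D.m v ^ i * h⁻¹) ↔
    Sh2 D U b v code)

/-! ## Computability -/

/-- decidable word problem of `A_U` -/
def WPU (D : Dat) (U : Finset (Fin D.r)) : Prop :=
  ComputablePred (fun u : W (Fin D.n) => rho D U (gEl D u) = 1)

def R1ok (D : Dat) (U : Finset (Fin D.r)) (b : Fin D.r) : Prop :=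
  ComputablePred (fun p : W (Fin D.n) × Fin D.n => D.β p.2 = b ∧ P1 D U b p.1 p.2)

def R2ok (D : Dat) (U : Finset (Fin D.r)) (b : Fin D.r) : Prop :=
  ComputablePred (fun p : W (Fin D.n) × Fin D.n => D.β p.2 = b ∧ P2 D U b p.1 p.2)

def R3ok (D : Dat) (U : Finset (Fin D.r)) (b : Fin D.r) : Prop :=
  ComputablePred (fun p : W (Fin D.n) × Fin D.n => D.β p.2 = b ∧ P3 D U b p.1 p.2)

/-- all recognition problems for `(U, b)` are decidable -/
def Rok (D : Dat) (U : Finset (Fin D.r)) (b : Fin D.r) : Prop :=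
  R1ok D U b ∧ R2ok D U b ∧ R3ok D U b

/-- the recognition problems needed for the geometry of `(U, b)` -/
def Rall (D : Dat) (U : Finset (Fin D.r)) (b : Fin D.r) : Prop :=
  ∀ c ∈ U, D.R b c = false → Rok D (pZ D U b) c

/-- the basic functions are computable (adapt `EC/BASB.lean`) -/
def S_BASX : Prop := ∀ (D : Dat),
  (Computable (fun u : W (Fin D.n) => inv u)) ∧
  (∀ U : Finset (Fin D.r), Computable (fun u : W (Fin D.n) => flt D U u)) ∧
  (Computable (fun p : Fin D.n × (ℕ × ℕ) => wp p.1 ((p.2.1 : ℤ) - (p.2.2 : ℤ)))) ∧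
  (Computable (fun p : Fin D.n × W (Fin D.n) => wp p.1 (eg D (D.β p.1) (gEl D p.2)))) ∧
  (Computable (fun p : Fin D.n × W (Fin D.n) => wp p.1 (-(eg D (D.β p.1) (gEl D p.2))))) ∧
  (∀ U : Finset (Fin D.r), Computable (fun p : Fin D.n × W (Fin D.n) =>
    flt D (pZ D U (D.β p.1)) p.2)) ∧
  (∀ b : Fin D.r, Computable (fun u : W (Fin D.n) =>
    ((flt D {b} u).countP (fun a => a.2 = true), (flt D {b} u).countP (fun a => a.2 = false))))

/-- equality of points and lines is decidable (`mem_H0'`, `mem_lsub`; for `onL`: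
`rho U x = w^i h`, `h ∈ par Z`, iff `rho U x = w^{eg (β w) x} rho Z x`, when `β w ∈ U`,
`β w ∉ Z`) -/
def S_SAMEC : Prop := ∀ (D : Dat) (U : Finset (Fin D.r)) (b : Fin D.r), b ∉ U → WPU D U →
  ComputablePred (fun p : W (Fin D.n) × W (Fin D.n) => sameP D U b p.1 p.2) ∧
  ComputablePred (fun p : (Fin D.n × Fin D.n) × (W (Fin D.n) × W (Fin D.n)) =>
    okL D U b p.1.1 p.1.2 ∧ sameL D U b p.1.2 p.2.1 p.2.2) ∧
  ComputablePred (fun p : (Fin D.n × Fin D.n) × (W (Fin D.n) × W (Fin D.n)) =>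
    okL D U b p.1.1 p.1.2 ∧ onL D U b p.1.2 p.2.1 p.2.2)

/-- double cosets: `dcs w g' g` for `c = β w`, `u = inv g' ++ g`, `Z = pZ U b`:
`rho U u ∈ A_Z w^i A_Z` iff `rho U u = rho (Z ∪ c) u` and `P1 Z c u w` -/
def S_DCSC : Prop := ∀ (D : Dat) (U : Finset (Fin D.r)) (b : Fin D.r), b ∉ U → WPU D U →
  Rall D U b →
  ComputablePred (fun p : (Fin D.n × Fin D.n) × (W (Fin D.n) × W (Fin D.n)) =>
    okL D U b p.1.1 p.1.2 ∧ dcs D U b p.1.2 p.2.1 p.2.2)

/-- (adapt `EC/NEARB.lean`, `EC/INDB.lean`) from `S_SAMEC`, `S_DCSC`; for `okL` use the guard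
`okO` -/
def S_NEARX : Prop := ∀ (D : Dat) (U : Finset (Fin D.r)) (b : Fin D.r), b ∉ U → WPU D U →
  Rall D U b →
  ComputablePred (fun p : (W (Fin D.n) × Fin D.n) × Option (Sy D) =>
    okO D U b p.2 ∧ D.β p.1.2 = b ∧ NearW D U b p.1.1 p.1.2 p.2) ∧
  ComputablePred (fun p : W (Fin D.n) × Option (Sy D) => okO D U b p.2 ∧ InDB D U b p.1 p.2) ∧
  ComputablePred (fun p : (W (Fin D.n) × Fin D.n × Fin D.n) × Option (Sy D) =>
    okO D U b p.2 ∧ okL D U b p.1.2.1 p.1.2.2 ∧ InDL D U b p.1.1 p.1.2.1 p.1.2.2 p.2)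

/-- bound for the position of the near point when the types are different. Proof:
`rho U (x) w^j = h₁ w'^i h₂` with `h₁, h₂ ∈ A_Z`. If the blocks of `w, w'` are different apply
`eg (β w)`: `eg (β w) x + j = 0`. If they are equal apply `rho {β w}`: `x' w^j = w'^i`,
`x' = w'^i w^{-j}`, `tame.bd`. -/
def S_NBDX : Prop := ∀ (D : Dat) (U : Finset (Fin D.r)) (b : Fin D.r), b ∉ U →
  ∀ (v w w' : Fin D.n) (g' g : W (Fin D.n)) (j : ℤ), okL D U b v w → okL D U b v w' →
  w ≠ w' → dcs D U b w' g' (g ++ wp w j) → |j| ≤ (g.length + g'.length : ℕ)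

/-- the cross line `(v, w, g)` meets the state -/
def MeetX (D : Dat) (U : Finset (Fin D.r)) (b : Fin D.r) (g : W (Fin D.n)) (v w : Fin D.n)
    (s : Option (Sy D)) : Prop := ∃ j : ℤ, NearW D U b (g ++ wp w j) v s

/-- MEET is decidable. Cases of `s`: point `(g', v')`: (i) `∃ j, sameP g' (g w^j)` iff
`onL w g g'`; (ii) `v = v'`, `dcs w' g' (g w^j)` with `w' ≠ w`: `j` is bounded (`S_NBDX`), bounded
search (`Asm.bs`); (iii) `v = v'`, `∃ j, dcs w g' (g w^j)`: with `x = g'⁻¹ g`, `Z = pZ U b`,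
`c = β w`: `rho U x = h₁ w^i h₂ w^{-j}`, i.e. `rho U x⁻¹ = w^j h₂⁻¹ w^{-i} h₁⁻¹`, which is
`rho U x = rho (Z ∪ c) x` and `P2 Z c (inv (inv g' ++ g)) w`. Block line `g'`: as (i). Cross line
`(g', v', w')`: `v = v'` and `∃ j, onL w' g' (g w^j)`: `w' ≠ w` bounded (`onL` implies `dcs`);
`w' = w`: `rho U x = w^i h w^{-j}`, `h ∈ A_Z`, which is `rho U x = rho (Z ∪ c) x` and
`P3 Z c (inv g' ++ g) w`. -/
def S_MEETX : Prop := ∀ (D : Dat) (U : Finset (Fin D.r)) (b : Fin D.r), b ∉ U → WPU D U →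
  Rall D U b →
  ComputablePred (fun p : (W (Fin D.n) × Fin D.n × Fin D.n) × Option (Sy D) =>
    okO D U b p.2 ∧ okL D U b p.1.2.1 p.1.2.2 ∧ MeetX D U b p.1.1 p.1.2.1 p.1.2.2 p.2)

/-- uniqueness of the near point. From `S_DICX` and library `S_UNI` (`Asm`), points
`(mk (g w^j), v)` on the line `(v, w, mk g)` with different `j` are different. -/
def S_UNIJ : Prop := ∀ (D : Dat) (U : Finset (Fin D.r)) (b : Fin D.r), b ∉ U → SysOK D U b →
  ∀ (g : W (Fin D.n)) (v w : Fin D.n) (s : Option (Sy D)) (j j' : ℤ), okO D U b s →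
  okL D U b v w → ¬ InDL D U b g v w s → NearW D U b (g ++ wp w j) v s →
  NearW D U b (g ++ wp w j') v s → j = j'

/-- admissibility of block line syllables (adapt `EC/ADM2.lean`; bounds from
`Pool.Graph….H231R2.EB.VBD` (`Asm.vbd`) applied to the word `flt D {b} y`) -/
def S_ADM2X : Prop := ∀ (D : Dat) (U : Finset (Fin D.r)) (b : Fin D.r), b ∉ U → WPU D U →
  WPU D {b} → Rall D U b →
  ComputablePred (fun p : Option (Sy D) × (W (Fin D.n) × W (Fin D.n)) =>
    okO D U b p.1 ∧ AdmW D U b p.1 (.inr (.inl p.2)))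

/-- admissibility of cross line syllables: `okL ∧ ¬ InDL ∧ ((¬ MeetX ∧ cond1) ∨
(∃ j, Near j ∧ cond2 j))`. The last part is r.e. (`NearW`, `cond2` decidable, `Asm.rex`), and
given `okL ∧ ¬ InDL ∧ MeetX` its negation is `∃ j, Near j ∧ ¬ cond2 j` by `S_UNIJ`, also r.e. Use
`Asm.c1`, `Asm.c2`, integers `j` as pairs of naturals; there are finitely many `(v, w)`. -/
def S_ADM3X : Prop := ∀ (D : Dat) (U : Finset (Fin D.r)) (b : Fin D.r), b ∉ U → SysOK D U b →
  WPU D U → Rall D U b →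
  ComputablePred (fun p : Option (Sy D) × (W (Fin D.n) × Fin D.n × Fin D.n × W ℕ) =>
    okO D U b p.1 ∧ AdmW D U b p.1 (.inr (.inr p.2)))

/-- (adapt `EC/ADMB.lean`) -/
def S_ADMX : Prop := ∀ (D : Dat) (U : Finset (Fin D.r)) (b : Fin D.r), b ∉ U → SysOK D U b →
  WPU D U → WPU D {b} → Rall D U b →
  ComputablePred (fun p : Option (Sy D) × Sy D => okO D U b p.1 ∧ AdmW D U b p.1 p.2)

/-- validity of codes is decidable (library `Asm.ch`) -/
def S_VCC : Prop := ∀ (D : Dat) (U : Finset (Fin D.r)) (b : Fin D.r), b ∉ U → SysOK D U b →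
  WPU D U → WPU D {b} → Rall D U b →
  ComputablePred (fun code : List (Sy D) => VC D U b none code)

/-- the value map of codes is computable (adapt library `EA` `VCOMP`) -/
def S_VALC : Prop := ∀ (D : Dat) (U : Finset (Fin D.r)) (b : Fin D.r),
  Computable (fun code : List (Sy D) => code.flatMap (valS D U b))

/-- the word problem of `A_U` is recursively enumerable (adapt `EC/REB.lean`, `EC/FPRE.lean`) -/
def S_REU : Prop := ∀ (D : Dat) (U : Finset (Fin D.r)),
  REPred (fun u : W (Fin D.n) => rho D U (gEl D u) = 1)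

/-- the word problem of `A_{U ∪ b}` (adapt `EC/STEPB.lean`) -/
def S_STEPW : Prop := ∀ (D : Dat) (U : Finset (Fin D.r)) (b : Fin D.r), b ∉ U → SysOK D U b →
  WPU D U → WPU D {b} → Rall D U b → WPU D (insert b U)

/-- shapes are decidable -/
def S_SHC : Prop := ∀ (D : Dat) (U : Finset (Fin D.r)) (b : Fin D.r), b ∉ U → WPU D U →
  (ComputablePred (fun p : List (Sy D) × Fin D.n => Sh1 D p.2 p.1)) ∧
  (ComputablePred (fun p : List (Sy D) × Fin D.n => (∀ a ∈ p.1, okS D U b a) ∧
    Sh2 D U b p.2 p.1))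

/-- `P1`, `P2` are decidable: by `S_CODE` every word has a valid code, so `P1 u` is
`∃ code, VC code ∧ rho (insert b U) u = value · rho U u ∧ Sh1 code` and `¬ P1 u` is
`∃ code, VC code ∧ … ∧ ¬ Sh1 code` (`S_SHP`); both are r.e. (`Asm.rex`, `Asm.rec'`). Note
`P1 u` iff `∃ i h, rho (insert b U) u * (rho U u)⁻¹ = h v^i h⁻¹`, similarly `P2`. -/
def S_R12 : Prop := ∀ (D : Dat) (U : Finset (Fin D.r)) (b : Fin D.r), b ∉ U → SysOK D U b →
  WPU D U → WPU D {b} → Rall D U b → WPU D (insert b U) → R1ok D U b ∧ R2ok D U b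

/-- `P3` is decidable. It is r.e. Its negation is: `¬ P2 u`, or there are `j, i, h₁, h₂` with
`rho (insert b U) u = v^j h₁ v^i h₂`, `i ≠ 0`, `h₁, h₂ ∉ par (pZ U b)` (`Z`). Indeed if `P3` holds
too, `u = v^{j'} h₁ h₂ v^{i'}`, then `v^{j-j'} h₁ v^i h₂ v^{-i'} (h₁ h₂)⁻¹ = 1`; `NSok` (second
part) gives, if `j ≠ j'` and `i' ≠ 0`, that `h₁ h₂ ∈ A_Z`; the cases `j = j'`, `i' = 0`, and
`h₁ h₂ ∈ A_Z` (`h₁ h₂` commutes with `v`) reduce to `NSok` (first part) for `h₂` or `h₁`. And if
`i = 0` or `h₁ ∈ A_Z` or `h₂ ∈ A_Z` then `P3` holds. -/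
def S_R3 : Prop := ∀ (D : Dat) (U : Finset (Fin D.r)) (b : Fin D.r), b ∉ U → NSok D U b →
  WPU D U → WPU D (insert b U) → R2ok D U b → R3ok D U b

/-- everything is decidable. Proof: strong induction on `U.card`: `WPU U` and
`∀ b ∉ U, Rok U b`. If the block `b` has no generators then `rho (insert b U) = rho U` and
`Rok U b` is vacuous. -/
def S_ALL : Prop := ∀ (D : Dat), (∀ b, WPU D {b}) →
  ∀ U : Finset (Fin D.r), WPU D U ∧ ∀ b, b ∉ U → Rok D U b

/-! ## The final theorem -/

open Pool.Agent.H482R3.EB (SolvWP)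

/-- the word problem of a block. `AR` of the restricted labels is a retract (`t_LIFTR`,
`Asm.artr`). -/
def S_BLK : Prop := ∀ (D : Dat) (_ : ∀ i, D.m i i = 1) (b : Fin D.r) (k : ℕ)
  (e : Fin k ≃ {i : Fin D.n // D.β i = b}),
  SolvWP (fun x y : Fin k => D.m (e x) (e y)) → WPU D {b}

/-- THE THEOREM: block graphs -/
def S_FIN : Prop := ∀ (n r : ℕ) (M : CoxeterMatrix (Fin n)) (β : Fin n → Fin r)
  (R : Fin r → Fin r → Prop), (∀ a b, R a b → R b a) →
  (∀ i j, β i ≠ β j → R (β i) (β j) → M i j = 2) →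
  (∀ i j, β i ≠ β j → ¬ R (β i) (β j) → Even (M i j) ∧ M i j ≠ 2) →
  (∀ b, ∃ (k : ℕ) (e : Fin k ≃ {i : Fin n // β i = b}),
    SolvWP (fun x y : Fin k => M (e x) (e y))) →
  SolvWP M

end Pool.Agent.H354.BG
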